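import Mathlib

/-!
# The simultaneous stage: a touching paraboloid on a grid of tilts
-/

set_option autoImplicit false

namespace Pool.Agent.Helper18.PB2

universe u

variable {X : Type u} [NormedAddCommGroup X] [NormedSpace ℝ X]

/-- Separation of the ball below and the cone above. -/
theorem sandwich (L : X →L[ℝ] ℝ) (x x' : X) (ρ ε : ℝ) (hρ : 0 ≤ ρ) (hε : 0 < ε)
    (hx' : ‖x'‖ ≤ 1)
    (h : ∀ y, ‖y‖ ≤ 1 → L (y - x') ≤ ρ * ‖y - x‖ - ρ * ‖x' - x‖ + ε) :
    ∃ W : X →L[ℝ] ℝ, ‖W‖ ≤ ρ ∧ (∀ y, W (y - x') ≤ ρ * ‖y - x‖ - ρ * ‖x' - x‖ + ε) ∧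
      ∀ y, ‖y‖ ≤ 1 → (L - W) (y - x') ≤ ε := by
  set s : Set (X × ℝ) := {p | ρ * ‖p.1 - x‖ - ρ * ‖x' - x‖ + ε < p.2} with hs
  set t : Set (X × ℝ) := {p | ‖p.1‖ ≤ 1 ∧ p.2 ≤ L (p.1 - x')} with ht
  have hs1 : Convex ℝ s := by
    rintro ⟨y, r⟩ hy ⟨y', r'⟩ hy' a b ha hb hab
    simp only [hs, Set.mem_ofPred_eq] at hy hy' ⊢
    have e1 : (a • (y, r) + b • (y', r')).1 - x = a • (y - x) + b • (y' - x) := by
      simp only [Prod.fst_add, Prod.smul_fst]
      have : x = a • x + b • x := by rw [← add_smul, hab, one_smul]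
      nth_rewrite 1 [this]
      rw [smul_sub, smul_sub]; abel
    have e2 : (a • (y, r) + b • (y', r')).2 = a * r + b * r' := by
      simp
    rw [e1, e2]
    have h1 : ‖a • (y - x) + b • (y' - x)‖ ≤ a * ‖y - x‖ + b * ‖y' - x‖ := by
      refine (norm_add_le _ _).trans ?_
      rw [norm_smul, norm_smul, Real.norm_of_nonneg ha, Real.norm_of_nonneg hb]
    have h2 := mul_le_mul_of_nonneg_left h1 hρ
    rcases ha.eq_or_lt with h0 | h0
    · subst h0
      have hb1 : b = 1 := by linarith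
      subst hb1
      simp only [zero_mul, one_mul, zero_add, zero_smul, one_smul] at *
      linarith
    · have h3 : a * (ρ * ‖y - x‖ - ρ * ‖x' - x‖ + ε) < a * r := mul_lt_mul_of_pos_left hy h0
      have h4 : b * (ρ * ‖y' - x‖ - ρ * ‖x' - x‖ + ε) ≤ b * r' :=
        mul_le_mul_of_nonneg_left hy'.le hb
      have h5 : ρ * ‖x' - x‖ = a * (ρ * ‖x' - x‖) + b * (ρ * ‖x' - x‖) := by
        rw [← add_mul, hab, one_mul]
      have h6 : ε = a * ε + b * ε := by rw [← add_mul, hab, one_mul]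
      nlinarith
  have hs2 : IsOpen s := by
    apply isOpen_lt
    · fun_prop
    · fun_prop
  have ht1 : Convex ℝ t := by
    rintro ⟨y, r⟩ ⟨hy, hr⟩ ⟨y', r'⟩ ⟨hy', hr'⟩ a b ha hb hab
    simp only at hy hr hy' hr'
    refine ⟨?_, ?_⟩
    · simp only [Prod.fst_add, Prod.smul_fst]
      refine (norm_add_le _ _).trans ?_
      rw [norm_smul, norm_smul, Real.norm_of_nonneg ha, Real.norm_of_nonneg hb]
      nlinarith
    · have e1 : (a • (y, r) + b • (y', r')).1 - x' = a • (y - x') + b • (y' - x') := by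
        simp only [Prod.fst_add, Prod.smul_fst]
        have : x' = a • x' + b • x' := by rw [← add_smul, hab, one_smul]
        nth_rewrite 1 [this]
        rw [smul_sub, smul_sub]; abel
      have e2 : (a • (y, r) + b • (y', r')).2 = a * r + b * r' := by
        simp
      rw [e1, e2, map_add, map_smul, map_smul, smul_eq_mul, smul_eq_mul]
      exact add_le_add (mul_le_mul_of_nonneg_left hr ha) (mul_le_mul_of_nonneg_left hr' hb)
  have hdisj : Disjoint s t := by
    rw [Set.disjoint_left]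
    rintro ⟨y, r⟩ hy ⟨hy1, hr⟩
    simp only [hs, Set.mem_ofPred_eq] at hy
    simp only at hy1 hr
    have := h y hy1
    linarith
  obtain ⟨Φ, u, hΦ1, hΦ2⟩ := geometric_hahn_banach_open hs1 hs2 ht1 hdisj
  set Ψ : X →L[ℝ] ℝ := Φ.comp (ContinuousLinearMap.inl ℝ X ℝ) with hΨ
  set c : ℝ := Φ (0, 1) with hc
  have hdec : ∀ (y : X) (r : ℝ), Φ (y, r) = Ψ y + c * r := by
    intro y r
    have : (y, r) = (y, (0 : ℝ)) + r • ((0 : X), (1 : ℝ)) := by simp
    rw [this, map_add, map_smul, smul_eq_mul, mul_comm]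
    rfl
  have h1 : ∀ (y : X) (r : ℝ), ρ * ‖y - x‖ - ρ * ‖x' - x‖ + ε < r → Ψ y + c * r < u := by
    intro y r hr
    rw [← hdec]
    exact hΦ1 (y, r) hr
  have h2 : ∀ (y : X) (r : ℝ), ‖y‖ ≤ 1 → r ≤ L (y - x') → u ≤ Ψ y + c * r := by
    intro y r hy hr
    rw [← hdec]
    exact hΦ2 (y, r) ⟨hy, hr⟩
  have hc0 : c < 0 := by
    have h3 := h1 x' (ε + 1) (by simp)
    have h4 := h2 x' 0 hx' (by simp)
    by_contra hcon
    push Not at hcon
    nlinarith
  have h1' : ∀ y : X, Ψ y + c * (ρ * ‖y - x‖ - ρ * ‖x' - x‖ + ε) ≤ u := by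
    intro y
    refine le_of_forall_pos_lt_add ?_
    intro d hd
    have h3 := h1 y (ρ * ‖y - x‖ - ρ * ‖x' - x‖ + ε + d / (-c)) (by
      have : 0 < d / (-c) := div_pos hd (by linarith)
      linarith)
    have h4 : c * (d / (-c)) = -d := by
      rw [div_neg, mul_neg, mul_div_cancel₀ _ hc0.ne]
    have h5 : c * (ρ * ‖y - x‖ - ρ * ‖x' - x‖ + ε + d / (-c))
        = c * (ρ * ‖y - x‖ - ρ * ‖x' - x‖ + ε) - d := by
      rw [mul_add, h4]; ring
    linarith
  have hu1 : u ≤ Ψ x' := by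
    have := h2 x' 0 hx' (by simp)
    linarith
  have hu2 : Ψ x' + c * ε ≤ u := by
    have := h1' x'
    have e : ρ * ‖x' - x‖ - ρ * ‖x' - x‖ + ε = ε := by ring
    rwa [e] at this
  set W : X →L[ℝ] ℝ := (-c)⁻¹ • Ψ with hW
  have hcp : 0 < -c := by linarith
  have hWv : ∀ v, W v = (-c)⁻¹ * Ψ v := fun v => rfl
  have hΨW : ∀ v, Ψ v = (-c) * W v := by
    intro v
    rw [hWv, mul_inv_cancel_left₀ hcp.ne']
  have hup : ∀ y, W (y - x') ≤ ρ * ‖y - x‖ - ρ * ‖x' - x‖ + ε := by
    intro y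
    have h3 := h1' y
    have h4 : Ψ (y - x') ≤ (-c) * (ρ * ‖y - x‖ - ρ * ‖x' - x‖ + ε) := by
      rw [map_sub]; linarith
    rw [hΨW] at h4
    exact le_of_mul_le_mul_left h4 hcp
  refine ⟨W, ?_, hup, ?_⟩
  · have h3 : ∀ v, W v ≤ ρ * ‖v‖ := by
      intro v
      refine le_of_forall_pos_le_add ?_
      intro d hd
      have h4 := hup (x' + (ε / d) • v)
      rw [add_sub_cancel_left, map_smul, smul_eq_mul] at h4
      have h5 : ‖x' + (ε / d) • v - x‖ ≤ ‖x' - x‖ + (ε / d) * ‖v‖ := by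
        have : x' + (ε / d) • v - x = (x' - x) + (ε / d) • v := by abel
        rw [this]
        refine (norm_add_le _ _).trans ?_
        rw [norm_smul, Real.norm_of_nonneg (by positivity)]
      have h6 := mul_le_mul_of_nonneg_left h5 hρ
      have h7 : (ε / d) * W v ≤ (ε / d) * (ρ * ‖v‖ + d) := by
        have : (ε / d) * (ρ * ‖v‖ + d) = ρ * ((ε / d) * ‖v‖) + ε := by
          field_simp
        rw [this]; linarith
      exact le_of_mul_le_mul_left h7 (by positivity)
    apply ContinuousLinearMap.opNorm_le_bound _ hρ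
    intro v
    rw [Real.norm_eq_abs, abs_le]
    constructor
    · have := h3 (-v)
      rw [map_neg, norm_neg] at this
      linarith
    · exact h3 v
  · intro y hy
    have h3 := h2 y (L (y - x')) hy le_rfl
    have h4 : (-c) * L (y - x') ≤ (-c) * (W (y - x') + ε) := by
      have h6 : Ψ (y - x') = Ψ y - Ψ x' := map_sub _ _ _
      rw [mul_add, ← hΨW, h6]
      linarith
    have h5 := le_of_mul_le_mul_left h4 hcp
    rw [_root_.sub_apply]
    linarith

/-- the elementary averaging inequality -/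
theorem real_avg {m : ℕ} (hm : 1 ≤ m) (a0 γ : ℝ) (a : Fin m → ℝ) (h0 : a0 ≤ γ)
    (h : ∀ k, a k ≤ γ) :
    (a0 + ∑ k, a k) / (m + 1) + 1 / (2 * (m : ℝ) ^ 2) * ∑ k, |a k - a0| ≤ γ := by
  have hm' : (1 : ℝ) ≤ m := by exact_mod_cast hm
  have h1 : ∑ k, |a k - a0| ≤ m * (γ - a0) + ∑ k, (γ - a k) := by
    have h2 : ∀ k, |a k - a0| ≤ (γ - a0) + (γ - a k) := by
      intro k
      have := h k
      rw [abs_le]; constructor <;> linarith
    calc ∑ k, |a k - a0| ≤ ∑ k, ((γ - a0) + (γ - a k)) := Finset.sum_le_sum fun k _ => h2 k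
      _ = m * (γ - a0) + ∑ k, (γ - a k) := by
        rw [Finset.sum_add_distrib]; simp; ring
  have h3 : ∑ k, (γ - a k) = m * γ - ∑ k, a k := by
    rw [Finset.sum_sub_distrib]; simp
  have h4 : 0 ≤ ∑ k, (γ - a k) := Finset.sum_nonneg fun k _ => sub_nonneg.2 (h k)
  set S : ℝ := (γ - a0) + ∑ k, (γ - a k) with hS
  have hS0 : 0 ≤ S := by linarith
  have h5 : ∑ k, |a k - a0| ≤ m * S := by
    have : m * S = m * (γ - a0) + m * ∑ k, (γ - a k) := by rw [hS]; ring
    rw [this]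
    have : ∑ k, (γ - a k) ≤ m * ∑ k, (γ - a k) := by nlinarith
    linarith
  have h6 : (a0 + ∑ k, a k) / (m + 1) = γ - S / (m + 1) := by
    rw [hS, h3]; field_simp; ring
  have h7 : 1 / (2 * (m : ℝ) ^ 2) * ∑ k, |a k - a0| ≤ S / (m + 1) := by
    calc 1 / (2 * (m : ℝ) ^ 2) * ∑ k, |a k - a0| ≤ 1 / (2 * (m : ℝ) ^ 2) * (m * S) := by
          apply mul_le_mul_of_nonneg_left h5; positivity
      _ = S / (2 * m) := by field_simp
      _ ≤ S / (m + 1) := by
          apply div_le_div_of_nonneg_left hS0 (by positivity) (by linarith)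
  linarith


/-- the simultaneous stage -/
def GStage : Prop :=
  ∀ (X : Type u) [NormedAddCommGroup X] [NormedSpace ℝ X] (M : ℕ)
    (f : X →L[ℝ] ℝ) (g : Fin (M + 1) → X →L[ℝ] ℝ) (x : X) (e θ σ : ℝ) (N : ℕ), ‖x‖ ≤ 1 →
    0 < e → 0 < θ → 0 < σ → 1 ≤ N →
    (∀ y : X, ‖y‖ ≤ 1 → f (y - x) + θ * ∑ k, |g k (y - x)| ≤ e) →
    ∃ (g' ω : Fin (M + 1) → X →L[ℝ] ℝ) (x' : X) (t : Fin (M + 1) → ℝ), ‖x'‖ ≤ 1 ∧
      (∀ k, 0 ≤ t k ∧ t k ≤ θ / 4) ∧
      (∀ k, ‖ω k‖ ≤ 32 * (N * (e / θ) / σ)) ∧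
      (∀ k, ‖g' k - g k‖ ≤ 32 * (N * (e / θ) / σ)) ∧
      ‖x' - x‖ ≤ σ ∧
      ∀ y : X, ‖y‖ ≤ 1 →
        (f + ∑ k, t k • (g k - ω k)) (y - x')
          + θ * (1 / (16 * ((M : ℝ) + 1) ^ 2 * N)) * ∑ k, |g' k (y - x')| ≤ 5 * e / (N : ℝ) ^ 2

theorem sum_update_sq {m : ℕ} (n : Fin m → ℕ) (k : Fin m) (j : ℕ) (N : ℝ) :
    ∑ i, ((Function.update n k j i : ℕ) - N) ^ 2
      = (∑ i, ((n i : ℝ) - N) ^ 2) + (((j : ℝ) - N) ^ 2 - ((n k : ℝ) - N) ^ 2) := by
  rw [← Finset.add_sum_erase _ _ (Finset.mem_univ k),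
    ← Finset.add_sum_erase (a := k) _ (fun i => ((n i : ℝ) - N) ^ 2) (Finset.mem_univ k)]
  have h : ∑ i ∈ Finset.univ.erase k, ((Function.update n k j i : ℕ) - N) ^ 2
      = ∑ i ∈ Finset.univ.erase k, ((n i : ℝ) - N) ^ 2 := by
    refine Finset.sum_congr rfl fun i hi => ?_
    rw [Function.update_of_ne (Finset.ne_of_mem_erase hi)]
  rw [h, Function.update_self]
  ring

theorem sum_update_lin {m : ℕ} (β : ℝ) (n : Fin m → ℕ) (k : Fin m) (j : ℕ) (v : Fin m → ℝ) :
    ∑ i, β * (Function.update n k j i : ℕ) * v i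
      = (∑ i, β * (n i : ℝ) * v i) + β * ((j : ℝ) - n k) * v k := by
  rw [← Finset.add_sum_erase _ _ (Finset.mem_univ k),
    ← Finset.add_sum_erase (a := k) _ (fun i => β * (n i : ℝ) * v i) (Finset.mem_univ k)]
  have h : ∑ i ∈ Finset.univ.erase k, β * (Function.update n k j i : ℕ) * v i
      = ∑ i ∈ Finset.univ.erase k, β * (n i : ℝ) * v i := by
    refine Finset.sum_congr rfl fun i hi => ?_
    rw [Function.update_of_ne (Finset.ne_of_mem_erase hi)]
  rw [h, Function.update_self]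
  ring

theorem gstage : GStage.{u} := by
  intro X _ _ M f g x e θ σ N hx he hθ hσ hN hyp
  classical
  have hNr : (1 : ℝ) ≤ N := by exact_mod_cast hN
  have hN0 : (0 : ℝ) < N := by linarith
  have hM0 : (0 : ℝ) ≤ M := Nat.cast_nonneg M
  set β : ℝ := θ / (8 * N) with hβ
  have hβ0 : 0 < β := by positivity
  set ρ : ℝ := 2 * e / σ with hρ
  have hρ0 : 0 < ρ := by positivity
  set ε : ℝ := e / (4 * (N : ℝ) ^ 2) with hε
  have hε0 : 0 < ε := by positivity
  set A : ℝ := 2 * e / (N : ℝ) ^ 2 with hA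
  have hA0 : 0 < A := by positivity
  -- the tilted functionals
  set L : (Fin (M + 1) → ℕ) → X →L[ℝ] ℝ := fun n => f + ∑ k, (β * (n k : ℝ)) • g k with hL
  have hLv : ∀ n v, L n v = f v + ∑ k, β * (n k : ℝ) * g k v := by
    intro n v
    simp only [hL, _root_.add_apply, _root_.sum_apply,
      _root_.smul_apply, smul_eq_mul]
  set ψ : (Fin (M + 1) → ℕ) → X → ℝ := fun n y => L n (y - x) - ρ * ‖y - x‖ with hψ
  set h : (Fin (M + 1) → ℕ) → ℝ := fun n => sSup (ψ n '' Metric.closedBall 0 1) with hh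
  have hbdd : ∀ n, BddAbove (ψ n '' Metric.closedBall 0 1) := by
    intro n
    refine ⟨‖L n‖ * 2, ?_⟩
    rintro _ ⟨y, hy, rfl⟩
    have hy' : ‖y‖ ≤ 1 := by simpa using hy
    have h1 := (L n).le_opNorm (y - x)
    have h2 : ‖y - x‖ ≤ 2 := (norm_sub_le _ _).trans (by linarith)
    have h3 : ‖L n‖ * ‖y - x‖ ≤ ‖L n‖ * 2 := mul_le_mul_of_nonneg_left h2 (norm_nonneg _)
    have h4 : L n (y - x) ≤ ‖L n (y - x)‖ := Real.le_norm_self _
    have h5 : 0 ≤ ρ * ‖y - x‖ := by positivity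
    simp only [hψ]
    linarith
  have hxm : x ∈ Metric.closedBall (0 : X) 1 := by simpa using hx
  have hle : ∀ n y, ‖y‖ ≤ 1 → ψ n y ≤ h n := by
    intro n y hy
    exact le_csSup (hbdd n) ⟨y, by simpa using hy, rfl⟩
  have hpos : ∀ n, 0 ≤ h n := by
    intro n
    have h1 := hle n x hx
    simpa [hψ] using h1
  have hex : ∀ n, ∃ y : X, ‖y‖ ≤ 1 ∧ h n - ε < ψ n y := by
    intro n
    have hne : (ψ n '' Metric.closedBall 0 1).Nonempty := ⟨ψ n x, x, hxm, rfl⟩
    obtain ⟨_, ⟨y, hy, rfl⟩, h2⟩ := exists_lt_of_lt_csSup hne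
      (show h n - ε < sSup (ψ n '' Metric.closedBall 0 1) by simp only [hh]; linarith)
    exact ⟨y, by simpa using hy, h2⟩
  choose xs hxs1 hxs2 using hex
  -- the bound on the grid
  have hbound : ∀ n : Fin (M + 1) → ℕ, (∀ k, n k ≤ 2 * N) → ∀ y : X, ‖y‖ ≤ 1 → L n (y - x) ≤ e := by
    intro n hn y hy
    have h1 := hyp y hy
    rw [hLv]
    have h2 : ∑ k, β * (n k : ℝ) * g k (y - x) ≤ θ * ∑ k, |g k (y - x)| := by
      rw [Finset.mul_sum]
      refine Finset.sum_le_sum fun k _ => ?_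
      have h3 : β * (n k : ℝ) ≤ θ := by
        have h4 : (n k : ℝ) ≤ 2 * N := by exact_mod_cast hn k
        calc β * (n k : ℝ) ≤ β * (2 * N) := mul_le_mul_of_nonneg_left h4 hβ0.le
          _ = θ / 4 := by rw [hβ]; field_simp; ring
          _ ≤ θ := by linarith
      have h5 : 0 ≤ β * (n k : ℝ) := by positivity
      calc β * (n k : ℝ) * g k (y - x) ≤ β * (n k : ℝ) * |g k (y - x)| :=
            mul_le_mul_of_nonneg_left (le_abs_self _) h5
        _ ≤ θ * |g k (y - x)| := mul_le_mul_of_nonneg_right h3 (abs_nonneg _)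
    linarith
  have hhe : ∀ n : Fin (M + 1) → ℕ, (∀ k, n k ≤ 2 * N) → h n ≤ e := by
    intro n hn
    have hne : (ψ n '' Metric.closedBall 0 1).Nonempty := ⟨ψ n x, x, hxm, rfl⟩
    apply csSup_le hne
    rintro _ ⟨y, hy, rfl⟩
    have hy' : ‖y‖ ≤ 1 := by simpa using hy
    have h1 := hbound n hn y hy'
    have h5 : 0 ≤ ρ * ‖y - x‖ := by positivity
    simp only [hψ]
    linarith
  -- the touching paraboloid
  set grid : Finset (Fin (M + 1) → ℕ) := Fintype.piFinset fun _ => Finset.range (2 * N + 1)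
    with hgrid
  have hmem : ∀ n : Fin (M + 1) → ℕ, n ∈ grid ↔ ∀ k, n k ≤ 2 * N := by
    intro n
    simp only [hgrid, Fintype.mem_piFinset, Finset.mem_range]
    exact forall_congr' fun k => Nat.lt_succ_iff
  set Q : (Fin (M + 1) → ℕ) → ℝ := fun n => ∑ k, ((n k : ℝ) - N) ^ 2 with hQ
  have hQ0 : ∀ n, 0 ≤ Q n := fun n => Finset.sum_nonneg fun k _ => sq_nonneg _
  obtain ⟨n, hn, hmax⟩ := Finset.exists_max_image grid (fun n => h n - A * Q n)
    ⟨fun _ => N, (hmem _).2 fun _ => by omega⟩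
  have hn' := (hmem n).1 hn
  have hcen : 0 ≤ h n - A * Q n := by
    have h1 := hmax (fun _ => N) ((hmem _).2 fun _ => by omega)
    have h2 : Q (fun _ => N) = 0 := by simp [hQ]
    rw [h2] at h1
    have h3 := hpos (fun _ => N)
    linarith
  have hAN : A * (N : ℝ) ^ 2 = 2 * e := by rw [hA]; field_simp
  have hint : ∀ k, 1 ≤ n k ∧ n k ≤ 2 * N - 1 := by
    intro k
    by_contra hcon
    have h1 : n k = 0 ∨ n k = 2 * N := by
      have := hn' k
      by_contra h2
      push Not at h2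
      apply hcon
      omega
    have h2 : ((n k : ℝ) - N) ^ 2 = (N : ℝ) ^ 2 := by
      rcases h1 with h1 | h1
      · rw [h1]; simp
      · rw [h1]; push_cast; ring
    have h3 : (N : ℝ) ^ 2 ≤ Q n := by
      rw [← h2]
      exact Finset.single_le_sum (f := fun k => ((n k : ℝ) - N) ^ 2)
        (fun i _ => sq_nonneg _) (Finset.mem_univ k)
    have h4 := hhe n hn'
    have h5 : A * (N : ℝ) ^ 2 ≤ A * Q n := mul_le_mul_of_nonneg_left h3 hA0.le
    linarith
  -- neighbours
  set up : Fin (M + 1) → Fin (M + 1) → ℕ := fun k => Function.update n k (n k + 1) with hup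
  set dn : Fin (M + 1) → Fin (M + 1) → ℕ := fun k => Function.update n k (n k - 1) with hdn
  have hupm : ∀ k, ∀ i, up k i ≤ 2 * N := by
    intro k i
    simp only [hup]
    by_cases hik : i = k
    · subst hik
      rw [Function.update_self]
      have := hint i
      omega
    · rw [Function.update_of_ne hik]
      exact hn' i
  have hdnm : ∀ k, ∀ i, dn k i ≤ 2 * N := by
    intro k i
    simp only [hdn]
    by_cases hik : i = k
    · subst hik
      rw [Function.update_self]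
      have := hint i
      omega
    · rw [Function.update_of_ne hik]
      exact hn' i
  have hsec : ∀ k, h (up k) + h (dn k) ≤ 2 * h n + 2 * A := by
    intro k
    have h1 := hmax (up k) ((hmem _).2 (hupm k))
    have h2 := hmax (dn k) ((hmem _).2 (hdnm k))
    have h3 : Q (up k) = Q n + ((((n k + 1 : ℕ) : ℝ) - N) ^ 2 - ((n k : ℝ) - N) ^ 2) :=
      sum_update_sq n k (n k + 1) N
    have h4 : Q (dn k) = Q n + ((((n k - 1 : ℕ) : ℝ) - N) ^ 2 - ((n k : ℝ) - N) ^ 2) :=
      sum_update_sq n k (n k - 1) N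
    have h5 : Q (up k) + Q (dn k) = 2 * Q n + 2 := by
      rw [h3, h4, Nat.cast_sub (hint k).1]
      push_cast
      ring
    have h6 : A * Q (up k) + A * Q (dn k) = 2 * (A * Q n) + 2 * A := by
      rw [← mul_add, h5]; ring
    linarith
  have hupL : ∀ k v, L (up k) v = L n v + β * g k v := by
    intro k v
    rw [hLv, hLv]
    have := sum_update_lin β n k (n k + 1) (fun i => g i v)
    simp only [hup]
    rw [this]
    push_cast
    ring
  have hdnL : ∀ k v, L (dn k) v = L n v - β * g k v := by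
    intro k v
    rw [hLv, hLv]
    have := sum_update_lin β n k (n k - 1) (fun i => g i v)
    simp only [hdn]
    rw [this, Nat.cast_sub (hint k).1]
    push_cast
    ring
  set x' : X := xs n with hx'
  have hx'1 : ‖x'‖ ≤ 1 := hxs1 n
  have hx'2 : h n - ε < ψ n x' := hxs2 n
  have hupψ : ∀ k y, ψ (up k) y = ψ n y + β * g k (y - x) := by
    intro k y
    simp only [hψ]
    rw [hupL]; ring
  have hdnψ : ∀ k y, ψ (dn k) y = ψ n y - β * g k (y - x) := by
    intro k y
    simp only [hψ]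
    rw [hdnL]; ring
  have huph : ∀ k, h (up k) ≤ h n + 2 * A + ε + β * g k (x' - x) := by
    intro k
    have h1 := hsec k
    have h2 := hle (dn k) x' hx'1
    rw [hdnψ] at h2
    linarith
  -- the separating functionals
  have hW : ∀ n : Fin (M + 1) → ℕ, ∃ W : X →L[ℝ] ℝ, ‖W‖ ≤ ρ ∧
      (∀ y, W (y - xs n) ≤ ρ * ‖y - x‖ - ρ * ‖xs n - x‖ + ε) ∧
      ∀ y, ‖y‖ ≤ 1 → (L n - W) (y - xs n) ≤ ε := by
    intro n
    apply sandwich (L n) x (xs n) ρ ε hρ0.le hε0 (hxs1 n)
    intro y hy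
    have h1 := hle n y hy
    have h2 := hxs2 n
    simp only [hψ] at h1 h2
    have h3 : L n (y - xs n) = L n (y - x) - L n (xs n - x) := by
      rw [← map_sub]; congr 1; abel
    rw [h3]
    linarith
  choose W hW1 hW2 hW3 using hW
  set γ : ℝ := 5 * e / (N : ℝ) ^ 2 with hγ
  have hγe : 2 * A + 4 * ε = γ := by
    rw [hA, hε, hγ]; field_simp; ring
  -- the estimates at `x'`
  have hF0 : ∀ y, ‖y‖ ≤ 1 → (L n - W n) (y - x') ≤ γ := by
    intro y hy
    have h1 := hW3 n y hy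
    linarith
  have hFk : ∀ k y, ‖y‖ ≤ 1 → (L (up k) - W (up k)) (y - x') ≤ γ := by
    intro k y hy
    have h1 := hW3 (up k) y hy
    have h2 := hW2 (up k) x'
    have h3 := hle (up k) (xs (up k)) (hxs1 _)
    have h4 := huph k
    have h5 : (L (up k) - W (up k)) (y - x')
        = (L (up k) - W (up k)) (y - xs (up k)) + L (up k) (xs (up k) - x')
          + W (up k) (x' - xs (up k)) := by
      simp only [_root_.sub_apply, map_sub]
      ring
    have h6 : L (up k) (xs (up k) - x') = ψ (up k) (xs (up k)) + ρ * ‖xs (up k) - x‖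
        - (ψ (up k) x' + ρ * ‖x' - x‖) := by
      simp only [hψ]
      have : L (up k) (xs (up k) - x') = L (up k) (xs (up k) - x) - L (up k) (x' - x) := by
        rw [← map_sub]; congr 1; abel
      rw [this]; ring
    have h7 := hupψ k x'
    rw [h5, h6, h7]
    linarith
  -- the displacement
  have hdisp : ‖x' - x‖ ≤ σ := by
    have h1 := hbound n hn' x' hx'1
    have h2 := hpos n
    simp only [hψ] at hx'2
    have h3 : ε ≤ e := by
      rw [hε]
      apply div_le_self he.le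
      nlinarith
    have h4 : ρ * ‖x' - x‖ ≤ 2 * e := by linarith
    rw [hρ, div_mul_eq_mul_div, div_le_iff₀ hσ] at h4
    have h5 : 2 * e * ‖x' - x‖ ≤ 2 * e * σ := by linarith
    exact le_of_mul_le_mul_left h5 (by linarith)
  -- the new functionals
  set m : ℝ := (M : ℝ) + 1 with hm
  have hm1 : 1 ≤ m := by rw [hm]; linarith
  set Wb : X →L[ℝ] ℝ := (m + 1)⁻¹ • (W n + ∑ k, W (up k)) with hWb
  have hWbn : ‖Wb‖ ≤ ρ := by
    rw [hWb, norm_smul, Real.norm_of_nonneg (by positivity)]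
    rw [inv_mul_le_iff₀ (by positivity)]
    refine (norm_add_le _ _).trans ?_
    have h1 : ‖∑ k, W (up k)‖ ≤ m * ρ := by
      refine (norm_sum_le _ _).trans ?_
      calc ∑ k, ‖W (up k)‖ ≤ ∑ _k : Fin (M + 1), ρ := Finset.sum_le_sum fun k _ => hW1 _
        _ = m * ρ := by
          rw [Finset.sum_const, Finset.card_univ, Fintype.card_fin, nsmul_eq_mul]
          push_cast; rfl
    have h2 := hW1 n
    linarith
  set t : Fin (M + 1) → ℝ := fun k => β * ((n k : ℝ) + (m + 1)⁻¹) with ht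
  have hinv : (m + 1)⁻¹ ≤ 1 := inv_le_one_of_one_le₀ (by linarith)
  have hinv0 : 0 < (m + 1)⁻¹ := by positivity
  have ht1 : ∀ k, β ≤ t k := by
    intro k
    have h1 : (1 : ℝ) ≤ n k := by exact_mod_cast (hint k).1
    simp only [ht]
    nlinarith
  have ht2 : ∀ k, t k ≤ θ / 4 := by
    intro k
    have h1 : (n k : ℝ) + 1 ≤ 2 * N := by
      have h2 := hint k
      have h3 : n k + 1 ≤ 2 * N := by omega
      exact_mod_cast h3
    simp only [ht]
    calc β * ((n k : ℝ) + (m + 1)⁻¹) ≤ β * (2 * N) := by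
          apply mul_le_mul_of_nonneg_left _ hβ0.le
          linarith
      _ = θ / 4 := by rw [hβ]; field_simp; ring
  set St : ℝ := ∑ k, t k with hSt
  have hStβ : β ≤ St := by
    refine (ht1 0).trans ?_
    exact Finset.single_le_sum (f := t) (fun i _ => hβ0.le.trans (ht1 i)) (Finset.mem_univ 0)
  have hSt0 : 0 < St := hβ0.trans_le hStβ
  have hρβ : ρ / β = 16 * (N * (e / θ) / σ) := by
    rw [hρ, hβ]; field_simp; ring
  refine ⟨fun k => g k - β⁻¹ • (W (up k) - W n), fun _ => St⁻¹ • Wb, x', t, hx'1,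
    fun k => ⟨hβ0.le.trans (ht1 k), ht2 k⟩, fun k => ?_, fun k => ?_, hdisp, fun y hy => ?_⟩
  · rw [norm_smul, norm_inv, Real.norm_of_nonneg hSt0.le]
    calc St⁻¹ * ‖Wb‖ ≤ β⁻¹ * ρ := by
          apply mul_le_mul _ hWbn (norm_nonneg _) (by positivity)
          exact inv_anti₀ hβ0 hStβ
      _ = 16 * (N * (e / θ) / σ) := by rw [← hρβ]; ring
      _ ≤ 32 * (N * (e / θ) / σ) := by
          have : 0 ≤ N * (e / θ) / σ := by positivity
          linarith
  · have h1 : g k - β⁻¹ • (W (up k) - W n) - g k = -(β⁻¹ • (W (up k) - W n)) := by abel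
    rw [h1, norm_neg, norm_smul, norm_inv, Real.norm_of_nonneg hβ0.le]
    have h2 : ‖W (up k) - W n‖ ≤ 2 * ρ := by
      refine (norm_sub_le _ _).trans ?_
      linarith [hW1 (up k), hW1 n]
    calc β⁻¹ * ‖W (up k) - W n‖ ≤ β⁻¹ * (2 * ρ) :=
          mul_le_mul_of_nonneg_left h2 (by positivity)
      _ = 2 * (ρ / β) := by ring
      _ = 32 * (N * (e / θ) / σ) := by rw [hρβ]; ring
  · set a0 : ℝ := (L n - W n) (y - x') with ha0
    set a : Fin (M + 1) → ℝ := fun k => (L (up k) - W (up k)) (y - x') with ha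
    have h1 := real_avg (m := M + 1) (by omega) a0 γ a (hF0 y hy) (fun k => hFk k y hy)
    have hmc : ((M + 1 : ℕ) : ℝ) = m := by rw [hm]; push_cast; rfl
    rw [hmc] at h1
    have h2 : (f + ∑ k, t k • (g k - St⁻¹ • Wb)) (y - x') = (a0 + ∑ k, a k) / (m + 1) := by
      set z := y - x' with hz
      have e1 : (f + ∑ k, t k • (g k - St⁻¹ • Wb)) z
          = f z + ∑ k, t k * g k z - Wb z := by
        simp only [_root_.add_apply, _root_.sum_apply, _root_.smul_apply, _root_.sub_apply,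
          smul_eq_mul, mul_sub, Finset.sum_sub_distrib]
        rw [← Finset.sum_mul]
        have : (∑ k, t k) * (St⁻¹ * Wb z) = Wb z := by
          rw [← hSt, mul_inv_cancel_left₀ hSt0.ne']
        rw [this]; ring
      have e2 : ∀ k, a k = L n z + β * g k z - W (up k) z := by
        intro k
        simp only [ha, _root_.sub_apply]
        rw [hupL]
      have e3 : a0 = L n z - W n z := by
        simp only [ha0, _root_.sub_apply]
      have e4 : Wb z = (m + 1)⁻¹ * (W n z + ∑ k, W (up k) z) := by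
        simp only [hWb, _root_.smul_apply, _root_.add_apply, _root_.sum_apply, smul_eq_mul]
      have e5 : ∑ k, a k = m * L n z + β * ∑ k, g k z - ∑ k, W (up k) z := by
        simp only [e2]
        rw [Finset.sum_sub_distrib, Finset.sum_add_distrib, Finset.sum_const, Finset.card_univ,
          Fintype.card_fin, nsmul_eq_mul, hmc, ← Finset.mul_sum]
      have e6 : ∑ k, t k * g k z = (∑ k, β * (n k : ℝ) * g k z) + β * (m + 1)⁻¹ * ∑ k, g k z := by
        rw [Finset.mul_sum, ← Finset.sum_add_distrib]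
        refine Finset.sum_congr rfl fun k _ => ?_
        simp only [ht]; ring
      rw [e1, e4, e5, e3, e6, div_eq_inv_mul, hLv]
      have hmm : (m + 1)⁻¹ * (m + 1) = 1 := inv_mul_cancel₀ (by positivity)
      linear_combination (-(f z + ∑ k, β * (n k : ℝ) * g k z)) * hmm
    have h3 : ∀ k, |a k - a0| = β * |(g k - β⁻¹ • (W (up k) - W n)) (y - x')| := by
      intro k
      have : a k - a0 = β * (g k - β⁻¹ • (W (up k) - W n)) (y - x') := by
        simp only [ha, ha0, _root_.sub_apply, _root_.smul_apply, smul_eq_mul]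
        rw [hupL, mul_sub, mul_inv_cancel_left₀ hβ0.ne']
        ring
      rw [this, abs_mul, abs_of_pos hβ0]
    have h4 : 1 / (2 * m ^ 2) * ∑ k, |a k - a0| = θ * (1 / (16 * m ^ 2 * N)) *
        ∑ k, |(g k - β⁻¹ • (W (up k) - W n)) (y - x')| := by
      simp only [h3]
      rw [← Finset.mul_sum, ← mul_assoc]
      congr 1
      rw [hβ]; field_simp; ring
    rw [h2, ← h4]
    exact h1

end Pool.Agent.Helper18.PB2
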