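import Pool.Agent.Helper98.PB.A6

/-!
# Choice of the parameters for the simultaneous stage, for every `s > 2`
-/

set_option autoImplicit false

namespace Pool.Agent.Helper18.PB2

/-- `∏_{l < c} 80 (M + 1)² / N_l` -/
noncomputable def PiQ (M : ℕ) (N : ℕ → ℕ) (c : ℕ) : ℝ :=
  ∏ l ∈ Finset.range c, (80 * ((M : ℝ) + 1) ^ 2 / N l)

/-- `∏_{l < c} 1 / (16 (M + 1)² N_l)` -/
noncomputable def ThQ (M : ℕ) (N : ℕ → ℕ) (c : ℕ) : ℝ :=
  ∏ l ∈ Finset.range c, (1 / (16 * ((M : ℝ) + 1) ^ 2 * N l))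

/-- `N_c PiQ_c / σ_c` -/
noncomputable def UQ (M : ℕ) (N : ℕ → ℕ) (σ : ℕ → ℝ) (c : ℕ) : ℝ := N c * PiQ M N c / σ c

theorem PiQ_succ (M : ℕ) (N : ℕ → ℕ) (c : ℕ) :
    PiQ M N (c + 1) = PiQ M N c * (80 * ((M : ℝ) + 1) ^ 2 / N c) := by
  unfold PiQ; rw [Finset.prod_range_succ]

theorem ThQ_succ (M : ℕ) (N : ℕ → ℕ) (c : ℕ) :
    ThQ M N (c + 1) = ThQ M N c * (1 / (16 * ((M : ℝ) + 1) ^ 2 * N c)) := by
  unfold ThQ; rw [Finset.prod_range_succ]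

theorem PiQ_zero (M : ℕ) (N : ℕ → ℕ) : PiQ M N 0 = 1 := by simp [PiQ]

theorem ThQ_zero (M : ℕ) (N : ℕ → ℕ) : ThQ M N 0 = 1 := by simp [ThQ]

theorem PiQ_pos (M : ℕ) (N : ℕ → ℕ) (hN : ∀ c, 1 ≤ N c) (c : ℕ) : 0 < PiQ M N c := by
  unfold PiQ
  refine Finset.prod_pos fun l _ => ?_
  have h1 : (0 : ℝ) < N l := by exact_mod_cast hN l
  positivity

theorem ThQ_pos (M : ℕ) (N : ℕ → ℕ) (hN : ∀ c, 1 ≤ N c) (c : ℕ) : 0 < ThQ M N c := by
  unfold ThQ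
  refine Finset.prod_pos fun l _ => ?_
  have h1 : (0 : ℝ) < N l := by exact_mod_cast hN l
  positivity

theorem ThQ_quarter (M : ℕ) (N : ℕ → ℕ) (hN : ∀ c, 1 ≤ N c) (c : ℕ) :
    ThQ M N (c + 1) ≤ ThQ M N c / 4 := by
  rw [ThQ_succ, div_eq_mul_inv]
  apply mul_le_mul_of_nonneg_left _ (ThQ_pos M N hN c).le
  have h1 : (1 : ℝ) ≤ N c := by exact_mod_cast hN c
  have h2 : (1 : ℝ) ≤ ((M : ℝ) + 1) ^ 2 := by
    have : (0 : ℝ) ≤ M := Nat.cast_nonneg M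
    nlinarith
  rw [one_mul]
  apply inv_anti₀ (by norm_num)
  nlinarith

/-- the recursion for `e_c = θ_c v_c` -/
theorem e_rec2 (M : ℕ) (N : ℕ) (hN : 1 ≤ N) :
    (1 / (16 * ((M : ℝ) + 1) ^ 2 * N)) * (80 * ((M : ℝ) + 1) ^ 2 / N) = 5 / (N : ℝ) ^ 2 := by
  have h1 : (0 : ℝ) < N := by exact_mod_cast hN
  have h2 : (0 : ℝ) < (M : ℝ) + 1 := by positivity
  field_simp
  norm_num

/-- A6, new version. -/
def GP2 : Prop :=
  ∀ (M : ℕ) (s : ℝ), 2 < s →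
    ∃ (N : ℕ → ℕ) (σ : ℕ → ℝ) (S : ℝ), (∀ c, 1 ≤ N c) ∧ (∀ c, 0 < σ c ∧ σ c ≤ 1) ∧
      Summable σ ∧ 0 < S ∧ (∀ c, UQ M N σ (c + 1) ≤ 1 / 2 * UQ M N σ c) ∧
      ∀ c, UQ M N σ c ^ (s - 1) ≤ S * ThQ M N (c + 1)

theorem gp2 : GP2 := by
  intro M s hs
  set m : ℝ := (M : ℝ) + 1 with hm
  have hm1 : 1 ≤ m := by
    have : (0 : ℝ) ≤ M := Nat.cast_nonneg M
    rw [hm]; linarith
  obtain ⟨A, hA⟩ : ∃ A : ℕ, 320 * m ^ 2 < 2 ^ A := pow_unbounded_of_one_lt _ (by norm_num)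
  set b : ℝ := 2 ^ A with hb
  have hb1 : 1 < b := by nlinarith
  have hb0 : 0 < b := by linarith
  set N : ℕ → ℕ := fun c => 2 ^ (A * (c + 2)) with hN
  set σ : ℕ → ℝ := fun c => (1 / 2 : ℝ) ^ (c + 1) with hσ
  have hNpos : ∀ c, 1 ≤ N c := fun c => Nat.one_le_two_pow
  have hNb : ∀ c, (N c : ℝ) = b ^ (c + 2) := fun c => by
    simp only [hN, hb]
    push_cast
    rw [pow_mul]
  have hσpos : ∀ c, 0 < σ c := fun c => by simp only [hσ]; positivity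
  have hU0 : ∀ c, 0 < UQ M N σ c := fun c => by
    have h1 := PiQ_pos M N hNpos c
    have h2 := hσpos c
    have h3 : (0 : ℝ) < N c := by exact_mod_cast hNpos c
    unfold UQ; positivity
  have hUs : ∀ c, UQ M N σ (c + 1) = UQ M N σ c * (160 * m ^ 2 / b ^ (c + 1)) := by
    intro c
    unfold UQ
    rw [PiQ_succ, hNb, hNb]
    have h1 : σ (c + 1) = σ c / 2 := by
      simp only [hσ]; rw [pow_succ]; ring
    rw [h1]
    have h2 := (hσpos c).ne'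
    have h3 := hb0.ne'
    field_simp
    ring
  refine ⟨N, σ, ?_⟩
  set r : ℕ → ℝ := fun c => UQ M N σ c ^ (s - 1) / ThQ M N (c + 1) with hr
  have hrpos : ∀ c, 0 < r c := fun c =>
    div_pos (Real.rpow_pos_of_pos (hU0 c) _) (ThQ_pos M N hNpos _)
  set K : ℝ := (160 * m ^ 2) ^ (s - 1) * (16 * m ^ 2 * b ^ 2) with hK
  have hKpos : 0 < K := by positivity
  set q : ℝ := b / b ^ (s - 1) with hq
  have hqpos : 0 < q := by positivity
  have hq1 : q < 1 := by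
    rw [hq, div_lt_one (by positivity)]
    calc b = b ^ (1 : ℝ) := (Real.rpow_one b).symm
      _ < b ^ (s - 1) := Real.rpow_lt_rpow_of_exponent_lt hb1 (by linarith)
  have hratio : ∀ c, r (c + 1) ≤ K * q ^ (c + 1) * r c := by
    intro c
    apply le_of_eq
    simp only [hr]
    rw [hUs, Real.mul_rpow (hU0 c).le (by positivity),
      Real.div_rpow (x := 160 * m ^ 2) (y := b ^ (c + 1)) (by positivity) (by positivity),
      ThQ_succ M N (c + 1)]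
    have h1 : ((b : ℝ) ^ (c + 1)) ^ (s - 1) = (b ^ (s - 1)) ^ (c + 1) := by
      rw [← Real.rpow_natCast, ← Real.rpow_natCast, ← Real.rpow_mul hb0.le,
        ← Real.rpow_mul hb0.le, mul_comm]
    rw [h1, hNb, hK, hq, div_pow]
    have h2 := (ThQ_pos M N hNpos (c + 1)).ne'
    have h3 : (b ^ (s - 1)) ^ (c + 1) ≠ 0 := by positivity
    have h4 := hb0.ne'
    field_simp
    ring
  obtain ⟨S, hS, hrS⟩ := Helper98.PB.bdd_of_ratio r K q hrpos hKpos hqpos hq1 hratio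
  refine ⟨S, hNpos, fun c => ⟨hσpos c, ?_⟩, ?_, hS, ?_, ?_⟩
  · simp only [hσ]
    exact pow_le_one₀ (by norm_num) (by norm_num)
  · have h1 : Summable (fun c : ℕ => (1 / 2 : ℝ) ^ c) := summable_geometric_two
    exact (summable_nat_add_iff 1).2 h1
  · intro c
    rw [hUs, mul_comm]
    apply mul_le_mul_of_nonneg_right _ (hU0 c).le
    rw [div_le_iff₀ (by positivity)]
    have h1 : b ≤ b ^ (c + 1) := by
      calc b = b ^ 1 := (pow_one b).symm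
        _ ≤ b ^ (c + 1) := pow_le_pow_right₀ hb1.le (by omega)
    linarith
  · intro c
    have h1 := hrS c
    simp only [hr] at h1
    rwa [div_le_iff₀ (ThQ_pos M N hNpos _)] at h1

end Pool.Agent.Helper18.PB2
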