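import Pool.Agent.Helper18.PB.A7
import Pool.Agent.Helper18.PB2.Stage
import Pool.Agent.Helper18.PB2.Params

/-! The iteration scheme with the simultaneous stage, `s > 2`. -/

set_option autoImplicit false

open MeasureTheory Measure Filter Topology

namespace Pool.Agent.Helper18.PB2

open Pool.Agent.Helper18.PB

universe u

/-- A7, new version. -/
def GS2 : Prop :=
  ∀ (X : Type u) [NormedAddCommGroup X] [NormedSpace ℝ X] [CompleteSpace X] (M : ℕ)
    (f : X →L[ℝ] ℝ) (g : Fin (M + 1) → X →L[ℝ] ℝ) (κ s C b ρ : ℝ), 0 < κ →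
    2 < s → 0 < C → 0 < b → C * b ^ (s - 2) ≤ κ / (33 * ((M : ℝ) + 1)) → 0 < ρ →
    (∀ y : X, ‖y‖ ≤ 1 → f y + κ * (∑ k, |g k y|) ^ 2 ≤ 1) →
    (∀ δ : ℝ, 0 < δ → ∃ x : X, ‖x‖ ≤ 1 ∧ 1 - δ < f x) →
    ∃ (F : X →L[ℝ] ℝ) (G : Fin (M + 1) → X →L[ℝ] ℝ) (z : X), ‖z‖ ≤ 1 ∧ ‖F - f‖ ≤ ρ ∧
      (∀ k, ‖G k - g k‖ ≤ ρ) ∧ (∀ y : X, ‖y‖ ≤ 1 → F (y - z) ≤ 0) ∧
      ∀ y : X, ‖y‖ ≤ 1 → ∑ k, |G k (y - z)| ≤ b →
        F (y - z) + C * (∑ k, |G k (y - z)|) ^ s ≤ 0

theorem a72 (hC : GStage.{u}) (hL : GLim.{u}) (hP : GP2) : GS2.{u} := by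
  intro X _ _ _ M f g κ s C b ρ hκ hs hC0 hb hCb hρ hQ hA
  classical
  obtain ⟨N, σ, S, hN, hσ, hσs, hS, hPi, hTh⟩ := hP M s hs
  have hσp : ∀ c, 0 < σ c := fun c => (hσ c).1
  have hM0 : (0 : ℝ) ≤ M := Nat.cast_nonneg M
  set m : ℝ := (M : ℝ) + 1 with hm
  have hm1 : 1 ≤ m := by rw [hm]; linarith
  have hs2 : 2 < s := hs
  set K0 : ℝ := 32 with hK0
  have hK0p : 1 ≤ K0 := by rw [hK0]; norm_num
  have hN0 : ∀ c, (1 : ℝ) ≤ N c := fun c => by exact_mod_cast hN c
  set K1 : ℝ := 44 * m * K0 with hK1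
  have hK1p : 0 < K1 := by rw [hK1]; positivity
  have hNσ : ∀ c, 1 ≤ (N c : ℝ) / σ c := fun c => by
    rw [le_div_iff₀ (hσp c), one_mul]
    exact (hσ c).2.trans (hN0 c)
  set D0 : ℝ := K0 * (N 0 / σ 0) with hD0
  have hD0p : 1 ≤ D0 := by
    have := hNσ 0
    rw [hD0]; nlinarith
  obtain ⟨v0, hv0, hv0a, hv0b, hv0c⟩ := exists_v0 (κ := κ) (s := s) (C := C) (K1 := K1) (S := S)
    (K2 := 2 * D0)
    (K3 := 2 * κ * ((∑ k, ‖g k‖) + m * (2 * D0 * 1 )) ) (ρ := min ρ (1 : ℝ)) hκ hs2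
    (lt_min hρ one_pos)
  have hv0b' : 2 * D0 * v0 ≤ ρ := hv0b.trans (min_le_left _ _)
  have hv0b1 : 2 * D0 * v0 ≤ 1 := hv0b.trans (min_le_right _ _)
  have hv01 : v0 ≤ 1 := by
    have h1 : 1 * v0 ≤ 2 * D0 * v0 := by
      apply mul_le_mul_of_nonneg_right _ hv0.le
      linarith
    linarith
  -- parameters
  set v : ℕ → ℝ := fun c => v0 * PiQ M N c with hv
  set θ : ℕ → ℝ := fun c => 2 * κ * v0 * ThQ M N c with hθ
  set E : ℕ → ℝ := fun c => K0 * (N c * v c / σ c) with hE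
  have hvp : ∀ c, 0 < v c := fun c => mul_pos hv0 (PiQ_pos M N hN c)
  have hθp : ∀ c, 0 < θ c := fun c => by
    have := ThQ_pos M N hN c
    simp only [hθ]; positivity
  have hEp : ∀ c, 0 < E c := fun c => by
    have h1 := hvp c
    have h2 := hσp c
    have h3 := hN0 c
    simp only [hE]; positivity
  have hvE : ∀ c, v c ≤ E c := fun c => by
    have h1 := hvp c
    have h2 := hNσ c
    have h3 : E c = K0 * (N c / σ c) * v c := by simp only [hE]; ring
    rw [h3]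
    have h4 : 1 ≤ K0 * (N c / σ c) := by nlinarith
    nlinarith
  have hE2 : ∀ c, 0 ≤ E c ∧ E (c + 1) ≤ E c / 2 := fun c => by
    refine ⟨(hEp c).le, ?_⟩
    have h1 := hPi c
    have h2 : E (c + 1) = K0 * v0 * UQ M N σ (c + 1) := by
      simp only [hE, hv, UQ]; ring
    have h3 : E c = K0 * v0 * UQ M N σ c := by
      simp only [hE, hv, UQ]; ring
    rw [h2, h3]
    have h4 : 0 ≤ K0 * v0 := by positivity
    nlinarith
  have hθ4 : ∀ c, 0 ≤ θ c ∧ θ (c + 1) ≤ θ c / 4 := fun c => by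
    refine ⟨(hθp c).le, ?_⟩
    have h1 := ThQ_quarter M N hN c
    simp only [hθ]
    have h2 : 0 ≤ 2 * κ * v0 := by positivity
    nlinarith
  -- the starting point
  obtain ⟨x0, hx0, hx0f⟩ := hA (κ * v0 ^ 2 / 16) (by positivity)
  have hP0 : ∑ k, |g k x0| ≤ v0 / 4 := by
    have h1 := hQ x0 hx0
    have h2 : κ * (∑ k, |g k x0|) ^ 2 ≤ κ * (v0 / 4) ^ 2 := by nlinarith
    have h3 : (∑ k, |g k x0|) ^ 2 ≤ (v0 / 4) ^ 2 := le_of_mul_le_mul_left h2 hκ
    exact abs_le_of_sq_le_sq' h3 (by positivity) |>.2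
  have hinit : ∀ w : ℝ, v0 ≤ w → ∀ y : X, ‖y‖ ≤ 1 →
      f (y - x0) + 2 * κ * w * ∑ k, |g k (y - x0)| ≤ 2 * κ * w ^ 2 := by
    intro w hw y hy
    have h1 := hQ y hy
    have h2 : ∑ k, |g k (y - x0)| ≤ (∑ k, |g k y|) + v0 / 4 := by
      calc ∑ k, |g k (y - x0)| ≤ ∑ k, (|g k y| + |g k x0|) := by
            refine Finset.sum_le_sum fun k _ => ?_
            rw [map_sub]
            exact abs_sub _ _
        _ = (∑ k, |g k y|) + ∑ k, |g k x0| := Finset.sum_add_distrib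
        _ ≤ _ := by linarith
    set P := ∑ k, |g k y| with hPdef
    have hP0' : 0 ≤ P := Finset.sum_nonneg fun k _ => abs_nonneg _
    have h3 : 2 * κ * w * ∑ k, |g k (y - x0)| ≤ 2 * κ * w * (P + v0 / 4) := by
      apply mul_le_mul_of_nonneg_left h2
      have : 0 < w := hv0.trans_le hw
      positivity
    rw [map_sub]
    have hw0 : 0 < w := hv0.trans_le hw
    have h4 : v0 ^ 2 ≤ w ^ 2 := by nlinarith
    have h5 : w * v0 ≤ w ^ 2 := by nlinarith
    have h6 : 2 * w * P ≤ P ^ 2 + w ^ 2 := by nlinarith [sq_nonneg (P - w)]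
    have h7 : κ * (2 * w * P) ≤ κ * (P ^ 2 + w ^ 2) := mul_le_mul_of_nonneg_left h6 hκ.le
    have h8 : κ * v0 ^ 2 ≤ κ * w ^ 2 := mul_le_mul_of_nonneg_left h4 hκ.le
    have h9 : κ * (w * v0) ≤ κ * w ^ 2 := mul_le_mul_of_nonneg_left h5 hκ.le
    nlinarith
  -- the state space
  let St := (X →L[ℝ] ℝ) × (Fin (M + 1) → X →L[ℝ] ℝ) × X
  let Pr : ℕ → St → Prop := fun c p => ‖p.2.2‖ ≤ 1 ∧ ∀ y : X, ‖y‖ ≤ 1 →
    p.1 (y - p.2.2) + θ c * ∑ k, |p.2.1 k (y - p.2.2)| ≤ θ c * v c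
  let Rr : ℕ → St → St → Prop := fun c p q => ∃ (ω : Fin (M + 1) → X →L[ℝ] ℝ)
    (t : Fin (M + 1) → ℝ), (∀ k, 0 ≤ t k ∧ t k ≤ θ c / 4) ∧ (∀ k, ‖ω k‖ ≤ E c) ∧
    q.1 = p.1 + ∑ k, t k • (p.2.1 k - ω k) ∧ (∀ k, ‖q.2.1 k - p.2.1 k‖ ≤ E c) ∧
    ‖q.2.2 - p.2.2‖ ≤ σ c
  have hPr0 : Pr 0 (f, g, x0) := by
    refine ⟨hx0, fun y hy => ?_⟩
    have h1 := hinit v0 le_rfl y hy
    have h2 : θ 0 = 2 * κ * v0 := by simp only [hθ]; rw [ThQ_zero]; ring
    have h3 : v 0 = v0 := by simp only [hv]; rw [PiQ_zero]; ring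
    rw [h2, h3]
    dsimp only
    linarith
  have hstep : ∀ c p, Pr c p → ∃ q, Pr (c + 1) q ∧ Rr c p q := by
    rintro c ⟨F, G, x⟩ ⟨hx, hst⟩
    obtain ⟨G', ω, x', t, hx', ht, hω, hG', hmv, hnew⟩ := hC X M F G x (θ c * v c) (θ c) (σ c) (N c)
      hx (mul_pos (hθp c) (hvp c)) (hθp c) (hσp c) (hN c) hst
    have hEc : 32 * (N c * (θ c * v c / θ c) / σ c) = E c := by
      simp only [hE, hK0]
      rw [mul_div_cancel_left₀ _ (hθp c).ne']
    rw [hEc] at hω hG'
    refine ⟨(F + ∑ k, t k • (G k - ω k), G', x'), ⟨hx', fun y hy => ?_⟩, ω, t, ht, hω, rfl, hG',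
      hmv⟩
    have h1 := hnew y hy
    have h2 : θ c * (1 / (16 * ((M : ℝ) + 1) ^ 2 * N c)) = θ (c + 1) := by
      simp only [hθ]
      rw [ThQ_succ]
      ring
    have h3 : 5 * (θ c * v c) / (N c : ℝ) ^ 2 = θ (c + 1) * v (c + 1) := by
      have h4 := e_rec2 M (N c) (hN c)
      have h5 : 5 * (θ c * v c) / (N c : ℝ) ^ 2 = θ c * v c * (5 / (N c : ℝ) ^ 2) := by ring
      rw [h5, ← h4]
      simp only [hθ, hv]
      rw [ThQ_succ, PiQ_succ]
      ring
    rw [h2, h3] at h1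
    exact h1
  obtain ⟨w, hw0, hwP, hwR⟩ := dep_choice Pr Rr (f, g, x0) hPr0 hstep
  choose ω t ht hω hF hG hx using hwR
  obtain ⟨H, K, z, hH, hz, hK, hcmp⟩ := limits (fun c => (w c).1) (fun c => (w c).2.1) ω
    (fun c => (w c).2.2) t θ E σ hF ht hω hG hE2 hθ4 hx hσs
  have hw01 : (w 0).1 = f := by rw [hw0]
  have hw02 : (w 0).2.1 = g := by rw [hw0]
  have hw03 : (w 0).2.2 = x0 := by rw [hw0]
  have hzb : ‖z‖ ≤ 1 := le_of_tendsto hz.norm (Eventually.of_forall fun c => (hwP c).1)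
  -- `H` is maximal at `z`
  have hθt : Tendsto θ atTop (𝓝 0) := by
    apply E_tendsto
    intro l
    exact ⟨(hθ4 l).1, (hθ4 l).2.trans (by linarith [(hθ4 l).1])⟩
  have hEt : Tendsto E atTop (𝓝 0) := E_tendsto E hE2
  have hmax : ∀ y : X, ‖y‖ ≤ 1 → H (y - z) ≤ 0 := by
    intro y hy
    have h1 : Tendsto (fun c => (w c).1 (y - (w c).2.2)) atTop (𝓝 (H (y - z))) := by
      have h2 : Tendsto (fun c => ((w c).1, y - (w c).2.2)) atTop (𝓝 (H, y - z)) :=
        hH.prodMk_nhds (tendsto_const_nhds.sub hz)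
      have h3 : Continuous fun p : (X →L[ℝ] ℝ) × X => p.1 p.2 := by
        exact isBoundedBilinearMap_apply.continuous
      exact (h3.tendsto _).comp h2
    have h4 : Tendsto (fun c => θ c * E c) atTop (𝓝 0) := by
      have := hθt.mul hEt
      simpa using this
    refine le_of_tendsto_of_tendsto h1 h4 (Eventually.of_forall fun c => ?_)
    have h5 := (hwP c).2 y hy
    have h6 : 0 ≤ θ c * ∑ k, |(w c).2.1 k (y - (w c).2.2)| :=
      mul_nonneg (hθp c).le (Finset.sum_nonneg fun k _ => abs_nonneg _)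
    have h7 : θ c * v c ≤ θ c * E c := mul_le_mul_of_nonneg_left (hvE c) (hθp c).le
    linarith
  have hmc : ((M + 1 : ℕ) : ℝ) = m := by push_cast; rw [hm]
  -- the inequality at stage `c`
  have hstage : ∀ c, ∀ y : X, ‖y‖ ≤ 1 → 22 * m * (2 * E c) ≤ ∑ k, |K k (y - z)| →
      H (y - z) + θ c / 3 * ∑ k, |K k (y - z)| ≤ 0 := by
    intro c y hy hU
    obtain ⟨T, r, hT1, hT2, hr⟩ := hcmp c
    refine hL X (M + 1) (w c).1 H r (w c).2.1 K T (w c).2.2 z (θ c * v c) (θ c) (2 * E c)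
      (by omega) (hwP c).1 hzb (hθp c) (by have := hEp c; positivity) ?_ (hwP c).2 hT1 hT2 hr
      (hK c) hmax y hy ?_
    · apply mul_le_mul_of_nonneg_left _ (hθp c).le
      linarith [hvE c, hEp c]
    · rw [hmc]; exact hU
  -- the inequality at large scales
  have hlarge : ∀ W : ℝ, 2 * E 0 ≤ W → ∀ y : X, ‖y‖ ≤ 1 → 22 * m * W ≤ ∑ k, |K k (y - z)| →
      H (y - z) + 2 * κ * W / 3 * ∑ k, |K k (y - z)| ≤ 0 := by
    intro W hW y hy hU
    obtain ⟨T, r, hT1, hT2, hr⟩ := hcmp 0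
    have hE0 := hEp 0
    have hWp : 0 < W := by linarith
    have hv0W : v0 ≤ W := by
      have h1 : v 0 = v0 := by simp only [hv]; rw [PiQ_zero]; ring
      have h2 := hvE 0
      rw [h1] at h2
      linarith
    have hθ0 : θ 0 ≤ 2 * κ * W := by
      have h2 : θ 0 = 2 * κ * v0 := by simp only [hθ]; rw [ThQ_zero]; ring
      rw [h2]
      apply mul_le_mul_of_nonneg_left hv0W (by positivity)
    refine hL X (M + 1) (w 0).1 H r (w 0).2.1 K T (w 0).2.2 z (2 * κ * W * W) (2 * κ * W) W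
      (by omega) (hwP 0).1 hzb (by positivity) hWp.le le_rfl ?_ hT1 ?_ ?_ ?_ hmax y hy ?_
    · intro y hy
      rw [hw01, hw02, hw03]
      have := hinit W hv0W y hy
      linarith
    · intro k
      refine ⟨(hT2 k).1, (hT2 k).2.trans ?_⟩
      linarith
    · refine hr.trans ?_
      apply mul_le_mul_of_nonneg_left _ (Nat.cast_nonneg _)
      apply mul_le_mul hθ0 hW (by positivity) (by positivity)
    · intro k
      exact (hK 0 k).trans hW
    · rw [hmc]; exact hU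
  have hE0v : E 0 = D0 * v0 := by
    simp only [hE, hv, hD0]; rw [PiQ_zero]; ring
  refine ⟨H, K, z, hzb, ?_, ?_, hmax, ?_⟩
  · -- distance of `H` and `f`
    obtain ⟨T, r, hT1, hT2, hr⟩ := hcmp 0
    rw [hw01, hw02] at hT1
    have h1 : H - f = (∑ k, T k • g k) - r := by rw [hT1]; abel
    have hθ0 : θ 0 = 2 * κ * v0 := by simp only [hθ]; rw [ThQ_zero]; ring
    rw [h1]
    refine (norm_sub_le _ _).trans ?_
    have h2 : ‖∑ k, T k • g k‖ ≤ θ 0 * ∑ k, ‖g k‖ := by
      rw [Finset.mul_sum]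
      refine norm_sum_le_of_le _ fun k _ => ?_
      rw [norm_smul, Real.norm_of_nonneg (hT2 k).1]
      apply mul_le_mul_of_nonneg_right _ (norm_nonneg _)
      have h3 := (hT2 k).2
      have h4 := hθp 0
      linarith
    rw [hmc, hE0v] at hr
    have h5 : 2 * κ * ((∑ k, ‖g k‖) + m * (2 * D0 * 1)) * v0 ≤ ρ :=
      hv0c.trans (min_le_left _ _)
    have h6 : m * (θ 0 * (2 * (D0 * v0)))
        ≤ 2 * κ * v0 * (m * (2 * D0 * 1)) := by
      rw [hθ0]
      have h7 : 0 ≤ m * (2 * κ * v0) * (2 * D0) := by positivity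
      have h8 : m * (2 * κ * v0) * (2 * D0) * v0
          ≤ m * (2 * κ * v0) * (2 * D0) * 1 :=
        mul_le_mul_of_nonneg_left hv01 h7
      nlinarith
    rw [hθ0] at h2 h6 hr
    nlinarith
  · intro k
    have h1 := hK 0 k
    rw [hw02] at h1
    refine h1.trans ?_
    rw [hE0v]
    have : 2 * (D0 * v0) = 2 * D0 * v0 := by ring
    rw [this]
    exact hv0b'
  · intro y hy hUb
    set U := ∑ k, |K k (y - z)| with hU
    have hU0 : 0 ≤ U := Finset.sum_nonneg fun k _ => abs_nonneg _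
    rcases eq_or_lt_of_le hU0 with h0 | hUp
    · rw [← h0, Real.zero_rpow (by linarith), mul_zero, add_zero]
      exact hmax y hy
    have hUs : U ^ s = U ^ (s - 2) * U ^ 2 := by
      rw [← Real.rpow_natCast U 2, ← Real.rpow_add hUp]
      congr 1
      push_cast
      ring
    have hUs1 : U ^ s = U ^ (s - 1) * U := by
      nth_rewrite 3 [← Real.rpow_one U]
      rw [← Real.rpow_add hUp]
      congr 1
      ring
    rcases le_or_gt (22 * m * (2 * E 0)) U with hbig | hsmall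
    · have h1 := hlarge (U / (22 * m)) (by
        rw [le_div_iff₀ (by positivity)]
        linarith) y hy (by
        rw [← hU]
        apply le_of_eq
        field_simp)
      rw [← hU] at h1
      have h2 : C * U ^ s ≤ κ / (33 * m) * U ^ 2 := by
        rw [hUs, ← mul_assoc]
        apply mul_le_mul_of_nonneg_right _ (by positivity)
        refine le_trans ?_ hCb
        apply mul_le_mul_of_nonneg_left _ hC0.le
        exact Real.rpow_le_rpow hU0 hUb (by linarith)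
      have h3 : 2 * κ * (U / (22 * m)) / 3 * U = κ / (33 * m) * U ^ 2 := by
        field_simp
        ring
      rw [h3] at h1
      linarith
    · -- small scales
      have hex : ∃ c, 22 * m * (2 * E c) ≤ U := by
        have h1 : Tendsto (fun c => 22 * m * (2 * E c)) atTop (𝓝 0) := by
          have := (hEt.const_mul 2).const_mul (22 * m)
          simpa using this
        exact ((h1.eventually (eventually_le_nhds hUp))).exists
      have hfind := Nat.find_spec hex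
      have hne : Nat.find hex ≠ 0 := by
        intro h0
        rw [h0] at hfind
        linarith
      obtain ⟨c, hc⟩ := Nat.exists_eq_succ_of_ne_zero hne
      have hc1 : U < 22 * m * (2 * E c) := by
        have := Nat.find_min hex (m := c) (by omega)
        push Not at this
        exact this
      rw [hc] at hfind
      have h1 := hstage (c + 1) y hy hfind
      rw [← hU] at h1
      have h2 : C * U ^ (s - 1) ≤ θ (c + 1) / 3 := by
        have h3 : U ^ (s - 1) ≤ (K1 * v0 * UQ M N σ c) ^ (s - 1) := by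
          apply Real.rpow_le_rpow hU0 _ (by linarith)
          refine hc1.le.trans (le_of_eq ?_)
          simp only [hE, hv, hK1, UQ]
          ring
        have hpp : 0 ≤ UQ M N σ c := by
          have h4 := PiQ_pos M N hN c
          have h5 := hσp c
          have h6 := hN0 c
          unfold UQ
          positivity
        rw [Real.mul_rpow (by positivity) hpp, Real.mul_rpow hK1p.le hv0.le] at h3
        have h6 := hTh c
        have h7 : v0 ^ (s - 1) = v0 ^ (s - 2) * v0 := by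
          nth_rewrite 3 [← Real.rpow_one v0]
          rw [← Real.rpow_add hv0]
          congr 1
          ring
        have hTp := ThQ_pos M N hN (c + 1)
        have hKs : 0 ≤ K1 ^ (s - 1) := Real.rpow_nonneg hK1p.le _
        have hvs : 0 ≤ v0 ^ (s - 2) := Real.rpow_nonneg hv0.le _
        calc C * U ^ (s - 1)
            ≤ C * (K1 ^ (s - 1) * v0 ^ (s - 1) * (S * ThQ M N (c + 1))) := by
              apply mul_le_mul_of_nonneg_left _ hC0.le
              refine h3.trans ?_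
              apply mul_le_mul_of_nonneg_left h6
              have : 0 ≤ v0 ^ (s - 1) := Real.rpow_nonneg hv0.le _
              positivity
          _ = (C * (K1 ^ (s - 1) * S) * v0 ^ (s - 2)) * (v0 * ThQ M N (c + 1)) := by
              rw [h7]; ring
          _ ≤ 2 * κ / 3 * (v0 * ThQ M N (c + 1)) := by
              apply mul_le_mul_of_nonneg_right hv0a
              positivity
          _ = θ (c + 1) / 3 := by simp only [hθ]; ring
      have h4 : C * U ^ s ≤ θ (c + 1) / 3 * U := by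
        rw [hUs1, ← mul_assoc]
        exact mul_le_mul_of_nonneg_right h2 hU0
      linarith

end Pool.Agent.Helper18.PB2
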