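import Pool.Agent.Helper13.PB.A8
import Pool.Agent.Helper18.PB2.Iter

/-!
# From the scheme to a norm attaining operator, `s > 2` (adapted from Helper13/PB/A8)
-/

set_option autoImplicit false

namespace Pool.Agent.Helper18.PB2

open Pool.Agent.Helper18.PB Pool.Agent.Helper13.PB Module

universe u v

/-- A8, new version. -/
def GFin2 : Prop :=
  ∀ (X : Type u) [NormedAddCommGroup X] [NormedSpace ℝ X] [CompleteSpace X]
    (Y : Type v) [NormedAddCommGroup Y] [NormedSpace ℝ Y] [FiniteDimensional ℝ Y]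
    (T : X →L[ℝ] Y) (p : Y) (κ s ρ : ℝ), 2 ≤ Module.finrank ℝ Y → ‖p‖ = 1 → 0 < κ → 0 < ρ →
    (∀ x : X, ‖x‖ ≤ 1 → ‖T x‖ ≤ 1 - κ * min ‖T x - p‖ ‖T x + p‖ ^ 2) →
    (∀ δ : ℝ, 0 < δ → ∃ x : X, ‖x‖ ≤ 1 ∧ ‖T x - p‖ < δ) →
    2 < s → FlatPt s p →
    ∃ T' : X →L[ℝ] Y, ‖T' - T‖ ≤ ρ ∧ Helper63.PropB.NormAttaining T'

theorem a82 : GS2.{u} → GFin2.{u, v} := by
  intro hGS X _ _ _ Y _ _ _ T p κ s ρ hn hp hκ hρ hQ hA hs hflat
  obtain ⟨M, hM⟩ : ∃ M, finrank ℝ Y = M + 2 := ⟨finrank ℝ Y - 2, by omega⟩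
  have hs' : 2 < s := hs
  have hM0 : (0 : ℝ) ≤ M := Nat.cast_nonneg M
  have hs2 : 2 < s := by linarith
  obtain ⟨w, hw1, hwp, C0', hC0'⟩ := hflat
  set C0 : ℝ := max C0' 0 with hC0
  have hC0n : 0 ≤ C0 := le_max_right _ _
  have hflat : ∀ h : Y, w h = 0 → ‖p + h‖ ≤ 1 + C0 * ‖h‖ ^ s := by
    intro h hh
    have h1 := hC0' h hh
    have h2 : 0 ≤ ‖h‖ ^ s := Real.rpow_nonneg (norm_nonneg _) _
    have h3 : C0' * ‖h‖ ^ s ≤ C0 * ‖h‖ ^ s := mul_le_mul_of_nonneg_right (le_max_left _ _) h2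
    linarith
  obtain ⟨h, c, hwh, hcp, hdec⟩ := exists_frame p w hwp M hM
  set L1 : ℝ := 1 + ∑ k, ‖c k‖ with hL1
  set L2 : ℝ := 1 + ∑ k, ‖h k‖ with hL2
  have hL1p : 0 < L1 := by positivity
  have hL2p : 0 < L2 := by positivity
  -- functionals
  set f : X →L[ℝ] ℝ := w.comp T with hf
  set g : Fin (M + 1) → X →L[ℝ] ℝ := fun k => (c k).comp T with hg
  set κ1 : ℝ := κ / L1 ^ 2 with hκ1
  have hκ1p : 0 < κ1 := by positivity
  have hfT : ∀ y, f y ≤ ‖T y‖ := by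
    intro y
    have h1 := w.le_opNorm (T y)
    have h2 : w (T y) ≤ ‖w (T y)‖ := Real.le_norm_self _
    have h3 : ‖w‖ * ‖T y‖ ≤ 1 * ‖T y‖ := mul_le_mul_of_nonneg_right hw1 (norm_nonneg _)
    change w (T y) ≤ _
    linarith
  have hgm : ∀ y, ∑ k, |g k y| ≤ L1 * ‖T y - p‖ := by
    intro y
    have h1 := sum_abs_apply_le c (T y - p)
    have h2 : ∀ k, c k (T y - p) = g k y := by
      intro k; rw [map_sub, hcp, sub_zero]; rfl
    simpa only [h2] using h1
  have hgp : ∀ y, ∑ k, |g k y| ≤ L1 * ‖T y + p‖ := by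
    intro y
    have h1 := sum_abs_apply_le c (T y + p)
    have h2 : ∀ k, c k (T y + p) = g k y := by
      intro k; rw [map_add, hcp, add_zero]; rfl
    simpa only [h2] using h1
  have hQ1 : ∀ y : X, ‖y‖ ≤ 1 → f y + κ1 * (∑ k, |g k y|) ^ 2 ≤ 1 := by
    intro y hy
    have h1 := hQ y hy
    have h2 : ∑ k, |g k y| ≤ L1 * min ‖T y - p‖ ‖T y + p‖ := by
      rw [mul_min_of_nonneg _ _ hL1p.le]
      exact le_min (hgm y) (hgp y)
    have h3 : (∑ k, |g k y|) ^ 2 ≤ (L1 * min ‖T y - p‖ ‖T y + p‖) ^ 2 :=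
      pow_le_pow_left₀ (Finset.sum_nonneg fun k _ => abs_nonneg _) h2 2
    have h4 : κ1 * (∑ k, |g k y|) ^ 2 ≤ κ * min ‖T y - p‖ ‖T y + p‖ ^ 2 := by
      calc κ1 * (∑ k, |g k y|) ^ 2 ≤ κ1 * (L1 * min ‖T y - p‖ ‖T y + p‖) ^ 2 :=
            mul_le_mul_of_nonneg_left h3 hκ1p.le
        _ = κ * min ‖T y - p‖ ‖T y + p‖ ^ 2 := by
            rw [hκ1]; field_simp
    have := hfT y
    linarith
  have hfA : ∀ x, 1 - ‖T x - p‖ ≤ f x := by
    intro x
    have h1 := w.le_opNorm (T x - p)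
    have h2 : -(w (T x - p)) ≤ ‖w (T x - p)‖ := by
      rw [Real.norm_eq_abs]; exact neg_le_abs _
    have h3 : ‖w‖ * ‖T x - p‖ ≤ 1 * ‖T x - p‖ := mul_le_mul_of_nonneg_right hw1 (norm_nonneg _)
    rw [map_sub, hwp] at h1 h2
    change _ ≤ w (T x)
    linarith
  -- constants
  set C3 : ℝ := C0 * 2 ^ (s - 1) * (2 * L2) ^ s with hC3
  have hC3n : 0 ≤ C3 := by positivity
  obtain ⟨b, hb, hbC⟩ := exists_b (C := 2 * C3 + 1) (s := s) (K := κ1 / (33 * ((M : ℝ) + 1)))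
    (by linarith) hs2 (by positivity)
  set b2 : ℝ := min (b / (4 * L1)) (1 / 4) with hb2
  have hb2p : 0 < b2 := by positivity
  have hb2a : L1 * b2 ≤ b / 4 := by
    have : b2 ≤ b / (4 * L1) := min_le_left _ _
    calc L1 * b2 ≤ L1 * (b / (4 * L1)) := mul_le_mul_of_nonneg_left this hL1p.le
      _ = b / 4 := by field_simp
  have hb2b : b2 ≤ 1 / 4 := min_le_right _ _
  -- ε0
  obtain ⟨e0, he0, he1, he2, he3, he4, he5⟩ : ∃ e0 : ℝ, 0 < e0 ∧ e0 ≤ b / 4 ∧ e0 ≤ 1 / 4 ∧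
      4 * C3 * e0 ≤ 1 ∧ L2 * e0 ≤ ρ / 2 ∧ L2 * e0 ≤ κ * b2 ^ 2 / 4 := by
    refine ⟨min (min (b / 4) (1 / 4)) (min (1 / (4 * (C3 + 1))) (min (ρ / (2 * L2))
      (κ * b2 ^ 2 / (4 * L2)))), by positivity, ?_, ?_, ?_, ?_, ?_⟩
    · exact (min_le_left _ _).trans (min_le_left _ _)
    · exact (min_le_left _ _).trans (min_le_right _ _)
    · have h1 : min (min (b / 4) (1 / 4)) (min (1 / (4 * (C3 + 1))) (min (ρ / (2 * L2))
        (κ * b2 ^ 2 / (4 * L2)))) ≤ 1 / (4 * (C3 + 1)) := (min_le_right _ _).trans (min_le_left _ _)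
      calc 4 * C3 * _ ≤ 4 * C3 * (1 / (4 * (C3 + 1))) := mul_le_mul_of_nonneg_left h1 (by positivity)
        _ = C3 / (C3 + 1) := by field_simp
        _ ≤ 1 := by rw [div_le_one (by positivity)]; linarith
    · have h1 : min (min (b / 4) (1 / 4)) (min (1 / (4 * (C3 + 1))) (min (ρ / (2 * L2))
        (κ * b2 ^ 2 / (4 * L2)))) ≤ ρ / (2 * L2) :=
          ((min_le_right _ _).trans (min_le_right _ _)).trans (min_le_left _ _)
      calc L2 * _ ≤ L2 * (ρ / (2 * L2)) := mul_le_mul_of_nonneg_left h1 hL2p.le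
        _ = ρ / 2 := by field_simp
    · have h1 : min (min (b / 4) (1 / 4)) (min (1 / (4 * (C3 + 1))) (min (ρ / (2 * L2))
        (κ * b2 ^ 2 / (4 * L2)))) ≤ κ * b2 ^ 2 / (4 * L2) :=
          ((min_le_right _ _).trans (min_le_right _ _)).trans (min_le_right _ _)
      calc L2 * _ ≤ L2 * (κ * b2 ^ 2 / (4 * L2)) := mul_le_mul_of_nonneg_left h1 hL2p.le
        _ = κ * b2 ^ 2 / 4 := by field_simp
  -- ρ'
  obtain ⟨r, hr0, hr1, hr2, hr3, hr4, hr5, hr6⟩ : ∃ r : ℝ, 0 < r ∧ r ≤ 1 / 8 ∧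
      ((M : ℝ) + 1) * r ≤ e0 / 2 ∧ 3 * r ≤ κ1 * (e0 / 2) ^ 2 ∧ L2 * r ≤ ρ / 2 ∧
      L2 * r ≤ κ * b2 ^ 2 / 4 ∧ 2 * r ≤ κ * b2 ^ 2 / 4 := by
    set A : ℝ := 8 + 2 * ((M : ℝ) + 1) / e0 + 3 / (κ1 * (e0 / 2) ^ 2) + 2 * L2 / ρ +
      4 * L2 / (κ * b2 ^ 2) + 8 / (κ * b2 ^ 2) with hA'
    have q1 : 0 < 2 * ((M : ℝ) + 1) / e0 := by positivity
    have q2 : 0 < 3 / (κ1 * (e0 / 2) ^ 2) := by positivity
    have q3 : 0 < 2 * L2 / ρ := by positivity
    have q4 : 0 < 4 * L2 / (κ * b2 ^ 2) := by positivity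
    have q5 : 0 < 8 / (κ * b2 ^ 2) := by positivity
    have hAp : 0 < A := by positivity
    have key : ∀ x y : ℝ, 0 < y → x / y ≤ A → x * A⁻¹ ≤ y := by
      intro x y hy h
      rw [div_le_iff₀ hy] at h
      rw [← div_eq_mul_inv, div_le_iff₀ hAp]
      linarith
    refine ⟨A⁻¹, by positivity, ?_, ?_, ?_, ?_, ?_, ?_⟩
    · have := key 1 (1 / 8) (by norm_num) (by norm_num; linarith)
      linarith
    · apply key _ _ (by positivity)
      have : ((M : ℝ) + 1) / (e0 / 2) = 2 * ((M : ℝ) + 1) / e0 := by field_simp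
      rw [this]; linarith
    · apply key _ _ (by positivity)
      linarith
    · apply key _ _ (by positivity)
      have : L2 / (ρ / 2) = 2 * L2 / ρ := by field_simp
      rw [this]; linarith
    · apply key _ _ (by positivity)
      have : L2 / (κ * b2 ^ 2 / 4) = 4 * L2 / (κ * b2 ^ 2) := by field_simp
      rw [this]; linarith
    · apply key _ _ (by positivity)
      have : 2 / (κ * b2 ^ 2 / 4) = 8 / (κ * b2 ^ 2) := by field_simp; norm_num
      rw [this]; linarith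
  obtain ⟨F, G, z, hz, hFf, hGg, hFz, hFC⟩ := hGS X M f g κ1 s (2 * C3 + 1) b r hκ1p hs'
    (by linarith) hb hbC hr0 hQ1 (by
      intro δ hδ
      obtain ⟨x, hx, hx2⟩ := hA δ hδ
      exact ⟨x, hx, by have := hfA x; linarith⟩)
  have hFfy : ∀ y, ‖y‖ ≤ 1 → |F y - f y| ≤ r := by
    intro y hy
    have h1 := (F - f).le_opNorm y
    rw [Real.norm_eq_abs] at h1
    have h2 : ‖F - f‖ * ‖y‖ ≤ r * 1 := mul_le_mul hFf hy (norm_nonneg _) hr0.le
    have h3 : (F - f) y = F y - f y := rfl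
    rw [← h3]; linarith
  have hFle : ∀ y, ‖y‖ ≤ 1 → F y ≤ F z := by
    intro y hy
    have := hFz y hy
    rw [map_sub] at this; linarith
  have hFz1 : 1 - 2 * r < F z := by
    obtain ⟨x, hx, hx2⟩ := hA r hr0
    have h1 := hfA x
    have h2 := abs_le.1 (hFfy x hx)
    have h3 := hFle x hx
    linarith [h2.1]
  have hFzp : 1 / 2 ≤ F z := by linarith
  have hFz0 : 0 < F z := by linarith
  have hfz := abs_le.1 (hFfy z hz)
  have hgz : ∑ k, |g k z| ≤ e0 / 2 := by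
    have h1 := hQ1 z hz
    have h2 : κ1 * (∑ k, |g k z|) ^ 2 ≤ κ1 * (e0 / 2) ^ 2 := by linarith [hfz.2]
    have h3 : (∑ k, |g k z|) ^ 2 ≤ (e0 / 2) ^ 2 := le_of_mul_le_mul_left h2 hκ1p
    exact le_of_sq_le_sq h3 (by positivity)
  set ε : ℝ := ∑ k, |G k z| with hε
  have hε0 : 0 ≤ ε := Finset.sum_nonneg fun k _ => abs_nonneg _
  have hεe : ε ≤ e0 := by
    have h1 := sum_abs_near hGg hz
    push_cast at h1
    linarith
  have hFz2 : F z ≤ 1 + r := by
    have h1 := hQ1 z hz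
    have h2 : 0 ≤ κ1 * (∑ k, |g k z|) ^ 2 := by positivity
    linarith [hfz.2]
  -- the operator
  set Hz : Y := ∑ k, G k z • h k with hHz
  set T' : X →L[ℝ] Y := F.smulRight p + ∑ k, (G k).smulRight (h k) -
    F.smulRight ((F z)⁻¹ • Hz) with hT'
  have hT'y : ∀ y, T' y = F y • p + ∑ k, G k y • h k - (F y * (F z)⁻¹) • Hz := by
    intro y
    simp [hT', smul_smul]
  have hHzn : ‖Hz‖ ≤ L2 * ε := norm_sum_smul_le h fun k => G k z
  have hquot : ∀ y, ‖y‖ ≤ 1 → |F y * (F z)⁻¹| ≤ 1 := by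
    intro y hy
    rw [abs_mul, abs_inv, abs_of_pos hFz0, ← div_eq_mul_inv, div_le_one hFz0, abs_le]
    refine ⟨?_, hFle y hy⟩
    have := hFle (-y) (by rwa [norm_neg])
    rw [map_neg] at this
    linarith
  have hTdiff : ∀ y, ‖y‖ ≤ 1 → ‖T' y - T y‖ ≤ L2 * r + L2 * ε := by
    intro y hy
    have h1 : T' y - T y = (F y - f y) • p + ∑ k, (G k y - g k y) • h k -
        (F y * (F z)⁻¹) • Hz := by
      rw [hT'y]
      have h2 : T y = f y • p + ∑ k, g k y • h k := hdec (T y)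
      rw [h2]
      simp only [sub_smul, Finset.sum_sub_distrib]
      abel
    rw [h1]
    have h3 : ‖(F y - f y) • p‖ ≤ r := by
      rw [norm_smul, hp, mul_one]; exact hFfy y hy
    have h4 : ‖∑ k, (G k y - g k y) • h k‖ ≤ (∑ k, ‖h k‖) * r := by
      calc ‖∑ k, (G k y - g k y) • h k‖ ≤ ∑ k, ‖(G k y - g k y) • h k‖ := norm_sum_le _ _
        _ ≤ ∑ k, ‖h k‖ * r := by
            apply Finset.sum_le_sum
            intro k _
            rw [norm_smul, mul_comm]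
            apply mul_le_mul_of_nonneg_left _ (norm_nonneg _)
            have h5 := (G k - g k).le_opNorm y
            have h6 : ‖G k - g k‖ * ‖y‖ ≤ r * 1 := mul_le_mul (hGg k) hy (norm_nonneg _) hr0.le
            have h7 : (G k - g k) y = G k y - g k y := rfl
            rw [← h7]; linarith
        _ = _ := by rw [Finset.sum_mul]
    have h5 : ‖(F y * (F z)⁻¹) • Hz‖ ≤ L2 * ε := by
      rw [norm_smul, Real.norm_eq_abs]
      calc |F y * (F z)⁻¹| * ‖Hz‖ ≤ 1 * ‖Hz‖ :=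
            mul_le_mul_of_nonneg_right (hquot y hy) (norm_nonneg _)
        _ ≤ L2 * ε := by rw [one_mul]; exact hHzn
    calc ‖(F y - f y) • p + ∑ k, (G k y - g k y) • h k - (F y * (F z)⁻¹) • Hz‖
        ≤ ‖(F y - f y) • p + ∑ k, (G k y - g k y) • h k‖ + ‖(F y * (F z)⁻¹) • Hz‖ :=
          norm_sub_le _ _
      _ ≤ ‖(F y - f y) • p‖ + ‖∑ k, (G k y - g k y) • h k‖ + ‖(F y * (F z)⁻¹) • Hz‖ := by
          gcongr; exact norm_add_le _ _
      _ ≤ r + (∑ k, ‖h k‖) * r + L2 * ε := by gcongr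
      _ = L2 * r + L2 * ε := by rw [hL2]; ring
  have hLε : L2 * ε ≤ L2 * e0 := mul_le_mul_of_nonneg_left hεe hL2p.le
  -- the claim
  have hnear : ∀ y, ‖y‖ ≤ 1 → ‖T y - p‖ < b2 → ‖T' y‖ ≤ F z := by
    intro y hy hyb
    have hFy : 1 / 2 ≤ F y := by
      have h1 := hfA y
      have h2 := abs_le.1 (hFfy y hy)
      linarith [h2.1]
    set U : ℝ := ∑ k, |G k (y - z)| with hU
    have hU0 : 0 ≤ U := Finset.sum_nonneg fun k _ => abs_nonneg _
    have hUb : U ≤ b := by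
      have h1 : U ≤ ∑ k, |G k y| + ε := by
        rw [hU, hε, ← Finset.sum_add_distrib]
        apply Finset.sum_le_sum
        intro k _
        rw [map_sub]
        exact abs_sub _ _
      have h2 := sum_abs_near hGg hy
      have h3 := hgm y
      have h4 : L1 * ‖T y - p‖ ≤ L1 * b2 := mul_le_mul_of_nonneg_left hyb.le hL1p.le
      push_cast at h2
      linarith
    set D : ℝ := F z - F y with hD
    have hDU : (2 * C3 + 1) * U ^ s ≤ D := by
      have h1 := hFC y hy hUb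
      rw [map_sub] at h1
      linarith
    have hD0 : 0 ≤ D := by have := hFle y hy; linarith
    have hD1 : D ≤ 1 := by linarith
    set H : Y := ∑ k, (G k (y - z) + D * (F z)⁻¹ * G k z) • h k with hH
    have hT'H : T' y = F y • p + H := by
      rw [hT'y, add_sub_assoc]
      congr 1
      rw [hH, hHz, Finset.smul_sum, ← Finset.sum_sub_distrib]
      apply Finset.sum_congr rfl
      intro k _
      rw [smul_smul, ← sub_smul]
      congr 1
      rw [map_sub, hD]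
      field_simp
      ring
    have hwH : w H = 0 := by
      rw [hH, map_sum]
      apply Finset.sum_eq_zero
      intro k _
      rw [map_smul, hwh, smul_zero]
    have hHn : ‖H‖ ≤ L2 * (U + 2 * D * ε) := by
      calc ‖H‖ ≤ L2 * ∑ k, |G k (y - z) + D * (F z)⁻¹ * G k z| := norm_sum_smul_le h _
        _ ≤ L2 * (U + 2 * D * ε) := by
            apply mul_le_mul_of_nonneg_left _ hL2p.le
            rw [hU, hε, Finset.mul_sum, ← Finset.sum_add_distrib]
            apply Finset.sum_le_sum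
            intro k _
            refine (abs_add_le _ _).trans ?_
            gcongr
            rw [abs_mul, abs_of_nonneg (by positivity : 0 ≤ D * (F z)⁻¹)]
            apply mul_le_mul_of_nonneg_right _ (abs_nonneg _)
            have h9 : (F z)⁻¹ ≤ 2 := by
              rw [inv_le_comm₀ hFz0 two_pos]; linarith
            have h10 := mul_le_mul_of_nonneg_left h9 hD0
            rw [mul_comm D 2] at h10
            exact h10
    have h1 := local_est p w C0 s (by linarith) hC0n hflat (F y) hFy H hwH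
    have h2 := real_est (C0 := C0) (L2 := L2) (s := s) (U := U) (D := D) (e := ε) (by linarith)
      hC0n hL2p.le hU0 hD0 hD1 hε0 (hεe.trans he2) hDU
      ((mul_le_mul_of_nonneg_left hεe (by positivity)).trans he3) (norm_nonneg H) hHn
    rw [hT'H]
    linarith
  have hclaim : ∀ y, ‖y‖ ≤ 1 → ‖T' y‖ ≤ F z := by
    intro y hy
    by_cases h1 : ‖T y - p‖ < b2
    · exact hnear y hy h1
    by_cases h2 : ‖T y + p‖ < b2
    · have h3 := hnear (-y) (by rwa [norm_neg]) (by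
        rw [map_neg, ← neg_add', norm_neg]; exact h2)
      rwa [map_neg, norm_neg] at h3
    · push Not at h1 h2
      have h3 := hQ y hy
      have h4 : b2 ≤ min ‖T y - p‖ ‖T y + p‖ := le_min h1 h2
      have h5 : κ * b2 ^ 2 ≤ κ * min ‖T y - p‖ ‖T y + p‖ ^ 2 :=
        mul_le_mul_of_nonneg_left (pow_le_pow_left₀ hb2p.le h4 2) hκ.le
      have h6 := hTdiff y hy
      have h7 : ‖T' y‖ ≤ ‖T y‖ + ‖T' y - T y‖ := by
        have : T' y = T y + (T' y - T y) := by abel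
        calc ‖T' y‖ = ‖T y + (T' y - T y)‖ := by rw [← this]
          _ ≤ _ := norm_add_le _ _
      linarith
  have hT'z : T' z = F z • p := by
    rw [hT'y, mul_inv_cancel₀ hFz0.ne', one_smul]
    simp [hHz]
  have hnormz : ‖T' z‖ = F z := by
    rw [hT'z, norm_smul, hp, mul_one, Real.norm_of_nonneg hFz0.le]
  have hnorm : ‖T'‖ = F z := by
    apply le_antisymm
    · apply ContinuousLinearMap.opNorm_le_of_unit_norm hFz0.le
      intro x hx
      exact hclaim x hx.le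
    · have h1 := T'.le_opNorm z
      rw [hnormz] at h1
      have h2 : ‖T'‖ * ‖z‖ ≤ ‖T'‖ * 1 := mul_le_mul_of_nonneg_left hz (norm_nonneg _)
      linarith
  refine ⟨T', ?_, z, ?_, ?_⟩
  · apply ContinuousLinearMap.opNorm_le_of_unit_norm hρ.le
    intro x hx
    have h1 := hTdiff x hx.le
    change ‖T' x - T x‖ ≤ ρ
    linarith
  · apply le_antisymm hz
    have h1 := T'.le_opNorm z
    rw [hnormz, hnorm] at h1
    by_contra hc
    push Not at hc
    have h2 := mul_lt_mul_of_pos_left hc hFz0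
    rw [mul_one] at h2
    exact absurd h1 (not_le.2 h2)
  · rw [hnormz, hnorm]

end Pool.Agent.Helper18.PB2
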