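import Pool.Agent.Helper18.PB2.Goals
import Pool.Agent.Helper18.PB2.Crit

/-!
# Smooth strictly convex spaces with property B: the assembly
-/

set_option autoImplicit false

open MeasureTheory Measure

namespace Pool.Agent.Helper18.PB2

open Pool.Agent.Helper18.PB

universe u v

/-- Smooth strictly convex examples, close to every finite dimensional space. -/
def Final22 : Prop :=
  ∀ (Y₀ : Type v) [NormedAddCommGroup Y₀] [NormedSpace ℝ Y₀] [FiniteDimensional ℝ Y₀]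
    [Nontrivial Y₀] (ε : ℝ), 0 < ε →
    ∃ (Y : Type) (_ : NormedAddCommGroup Y) (_ : NormedSpace ℝ Y) (S : Y₀ ≃L[ℝ] Y),
      (∀ y, (1 - ε) * ‖y‖ ≤ ‖S y‖ ∧ ‖S y‖ ≤ (1 + ε) * ‖y‖) ∧ StrictConvexSpace ℝ Y ∧
      (∀ y : Y, y ≠ 0 → DifferentiableAt ℝ (fun z : Y => ‖z‖) y) ∧
      Helper63.PropB.PropertyB.{u, 0} Y

theorem tw_sub {n : ℕ} (η t : ℝ) (c d : Eu n) : tw n η t c - tw n η t d = tw n η t (c - d) := by
  unfold tw
  rw [inner_sub_right]
  module

theorem tw_add {n : ℕ} (η t : ℝ) (c d : Eu n) : tw n η t c + tw n η t d = tw n η t (c + d) := by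
  unfold tw
  rw [inner_add_right]
  module

theorem tw_zero {n : ℕ} (η t : ℝ) : tw n η t (0 : Eu n) = 0 := by
  unfold tw; simp

theorem continuous_gam (n : ℕ) : Continuous (gam n) := by
  unfold gam
  apply (PiLp.continuous_toLp 2 _).comp
  fun_prop

theorem continuous_tw {n : ℕ} (η : ℝ) (c : Eu n) : Continuous (fun t => tw n η t c) := by
  unfold tw
  have := continuous_gam n
  fun_prop

theorem tw_near (hP : HPol) {n : ℕ} {η t G : ℝ} (hη : 0 < η) (hG : ‖gam n t‖ ≤ G) (c : Eu n) :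
    ‖tw n η t c - c‖ ≤ η * G ^ 2 * ‖c‖ := by
  rcases eq_or_ne c 0 with h | h
  · subst h; rw [tw_zero]; simp
  · exact (hP n η c hη h).2.2.2 t G hG

theorem tw_norm (hP : HPol) {n : ℕ} {η t G : ℝ} (hη : 0 < η) (hG : ‖gam n t‖ ≤ G) (c : Eu n) :
    ‖tw n η t c‖ ≤ ‖c‖ * (1 + η * G ^ 2) := by
  have h1 := tw_near hP hη hG c
  have h2 : tw n η t c = c + (tw n η t c - c) := by abel
  calc ‖tw n η t c‖ = ‖c + (tw n η t c - c)‖ := by rw [← h2]
    _ ≤ ‖c‖ + ‖tw n η t c - c‖ := norm_add_le _ _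
    _ ≤ _ := by linarith

/-- separation of two vectors which are not on the same ray -/
theorem exists_sep {n : ℕ} {x y : Eu n} (h : ¬ SameRay ℝ x y) :
    ∃ a : Eu n, 0 < (inner ℝ a x : ℝ) ∧ (inner ℝ a y : ℝ) < 0 := by
  have hx : x ≠ 0 := by
    rintro rfl; exact h (SameRay.zero_left y)
  have hy : y ≠ 0 := by
    rintro rfl; exact h (SameRay.zero_right x)
  have hxp : 0 < ‖x‖ := norm_pos_iff.2 hx
  have hyp : 0 < ‖y‖ := norm_pos_iff.2 hy
  have hlt : (inner ℝ x y : ℝ) < ‖x‖ * ‖y‖ := by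
    refine lt_of_le_of_ne (real_inner_le_norm x y) ?_
    intro heq
    rw [inner_eq_norm_mul_iff_real] at heq
    apply h
    rw [sameRay_iff_norm_smul_eq]
    exact heq.symm
  refine ⟨‖y‖ • x - ‖x‖ • y, ?_, ?_⟩
  · rw [inner_sub_left, real_inner_smul_left, real_inner_smul_left, real_inner_self_eq_norm_sq,
      real_inner_comm]
    nlinarith
  · rw [inner_sub_left, real_inner_smul_left, real_inner_smul_left, real_inner_self_eq_norm_sq]
    nlinarith

/-- a sequence which visits every open set for arbitrarily late indices -/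
theorem exists_seq (n : ℕ) (hn : 1 ≤ n) : ∃ d : ℕ → Eu n, (∀ k, d k ≠ 0) ∧
    ∀ U : Set (Eu n), IsOpen U → (U ∩ {0}ᶜ).Nonempty → ∃ z ∈ U, ∀ l : ℕ, ∃ k ≥ l, d k = z := by
  classical
  have : Nonempty (Fin n) := ⟨⟨0, by omega⟩⟩
  obtain ⟨e₀, he₀⟩ : ∃ e₀ : Eu n, e₀ ≠ 0 := exists_ne 0
  let q : ℕ → Eu n := TopologicalSpace.denseSeq _
  have hq : DenseRange q := TopologicalSpace.denseRange_denseSeq _
  refine ⟨fun k => if q (Nat.unpair k).1 = 0 then e₀ else q (Nat.unpair k).1, ?_, ?_⟩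
  · intro k
    dsimp only
    split_ifs with h
    · exact he₀
    · exact h
  · intro U hU hne
    have hV : IsOpen (U ∩ {0}ᶜ) := hU.inter isOpen_compl_singleton
    obtain ⟨j, hj⟩ := hq.exists_mem_open hV hne
    refine ⟨q j, hj.1, fun l => ⟨Nat.pair j l, Nat.right_le_pair j l, ?_⟩⟩
    dsimp only
    rw [Nat.unpair_pair]
    exact if_neg hj.2

/-- positive lower bound on a compact set -/
theorem exists_lower {n : ℕ} {K : Set ℝ} (hK : IsCompact K) {α : ℝ → Eu n} (hα : Continuous α)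
    {x : Eu n} (h : ¬ ∃ t ∈ K, inner ℝ (α t) x = 0) :
    ∃ r : ℝ, 0 < r ∧ ∀ t ∈ K, r ≤ |inner ℝ (α t) x| := by
  rcases K.eq_empty_or_nonempty with h0 | h0
  · subst h0
    exact ⟨1, one_pos, fun t ht => absurd ht (Set.notMem_empty t)⟩
  · have hc : Continuous (fun t => |inner ℝ (α t) x|) := by fun_prop
    obtain ⟨t₀, ht₀, hmin⟩ := hK.exists_isMinOn h0 hc.continuousOn
    refine ⟨|inner ℝ (α t₀) x|, ?_, fun t ht => hmin ht⟩
    exact abs_pos.2 fun h1 => h ⟨t₀, ht₀, h1⟩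

/-- the condition which gives flatness -/
def Cond {n M : ℕ} (a : ℕ → ℝ → Eu n) (b : Fin M → ℝ → Eu n) (δ : ℕ → ℝ) (x : Eu n) : Prop :=
  (∃ r : ℝ, 0 < r ∧ ∀ u i j, (b i u - b j u = 0 ∨ r ≤ |inner ℝ (b i u - b j u) x|) ∧
        (b i u + b j u = 0 ∨ r ≤ |inner ℝ (b i u + b j u) x|)) ∧
    (∀ k, ∃ r : ℝ, 0 < r ∧ ∀ u, r ≤ |inner ℝ (a k u) x|) ∧
    ∃ k₀, ∀ k ≥ k₀, ∀ u, δ k * ‖x‖ ≤ |inner ℝ (a k u) x|

theorem Cond.smul {n M : ℕ} {a : ℕ → ℝ → Eu n} {b : Fin M → ℝ → Eu n} {δ : ℕ → ℝ} {x : Eu n}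
    (h : Cond a b δ x) {t : ℝ} (ht : 0 < t) : Cond a b δ (t • x) := by
  obtain ⟨⟨r, hr, h1⟩, h2, k₀, h3⟩ := h
  have key : ∀ v : Eu n, |inner ℝ v (t • x)| = t * |(inner ℝ v x : ℝ)| := by
    intro v
    rw [inner_smul_right, abs_mul, abs_of_pos ht]
  refine ⟨⟨t * r, by positivity, fun u i j => ⟨?_, ?_⟩⟩, fun k => ?_, k₀, fun k hk u => ?_⟩
  · refine (h1 u i j).1.imp id fun h => ?_
    rw [key]
    exact mul_le_mul_of_nonneg_left h ht.le
  · refine (h1 u i j).2.imp id fun h => ?_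
    rw [key]
    exact mul_le_mul_of_nonneg_left h ht.le
  · obtain ⟨r, hr, h⟩ := h2 k
    refine ⟨t * r, by positivity, fun u => ?_⟩
    rw [key]
    exact mul_le_mul_of_nonneg_left (h u) ht.le
  · rw [key, norm_smul, Real.norm_of_nonneg ht.le]
    calc δ k * (t * ‖x‖) = t * (δ k * ‖x‖) := by ring
      _ ≤ _ := mul_le_mul_of_nonneg_left (h3 k hk u) ht.le

/-- the curves: their properties -/
structure Cur {n M : ℕ} (a : ℕ → ℝ → Eu n) (b : Fin M → ℝ → Eu n) (A : ℕ → ℝ) (B : ℝ)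
    (δ : ℕ → ℝ) : Prop where
  ma : ∀ k, Measurable (a k)
  mb : ∀ i, Measurable (b i)
  ba : ∀ k u, ‖a k u‖ ≤ A k
  bb : ∀ i u, ‖b i u‖ ≤ B
  A0 : ∀ k, 0 ≤ A k
  hδ : ∀ k, 0 < δ k ∧ δ k ≤ 1
  cond : volume {x : Eu n | ¬ Cond a b δ x} = 0
  ex : ∀ x, x ≠ 0 → ∃ k, ∀ u, 0 < inner ℝ (a k u) x
  sep : ∀ x y, ¬ SameRay ℝ x y → ∃ k, ∀ u, 0 < inner ℝ (a k u) x ∧ inner ℝ (a k u) y < 0
  smo : ∀ x, x ≠ 0 → ∀ᵐ u ∂(volume.restrict (Set.Icc (0 : ℝ) 1)), (∀ k, inner ℝ (a k u) x ≠ 0) ∧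
        ∀ i j, (b i u - b j u = 0 ∨ inner ℝ (b i u - b j u) x ≠ 0) ∧
          (b i u + b j u = 0 ∨ inner ℝ (b i u + b j u) x ≠ 0)

/-- existence of the curves, the `b i` being close to given vectors -/
theorem exists_cur (hφ : HPhi) (hN : HNull) (hB : HBC) (hP : HPol) (n M : ℕ) (hn : 1 ≤ n)
    (b₀ : Fin M → Eu n) (ε : ℝ) (hε : 0 < ε) :
    ∃ (a : ℕ → ℝ → Eu n) (b : Fin M → ℝ → Eu n) (A : ℕ → ℝ) (B : ℝ) (δ : ℕ → ℝ),
      Cur a b A B δ ∧ ∀ i u, ‖b i u - b₀ i‖ ≤ ε := by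
  classical
  obtain ⟨φ, K, hφm, hφi, hK, hK0, hφK⟩ := hφ
  obtain ⟨G, hG⟩ : ∃ G : ℝ, ∀ t ∈ K, ‖gam n t‖ ≤ G := by
    obtain ⟨G, hG⟩ := (hK.image (continuous_gam n)).isBounded.exists_norm_le
    exact ⟨G, fun t ht => hG _ ⟨t, ht, rfl⟩⟩
  have hGφ : ∀ u, ‖gam n (φ u)‖ ≤ G := fun u => hG _ (hφK u)
  obtain ⟨d, hd0, hd⟩ := exists_seq n hn
  -- scale of the perturbation
  set D : ℝ := 1 + ∑ i, ‖b₀ i‖ with hD
  have hD1 : 1 ≤ D := by
    have : 0 ≤ ∑ i, ‖b₀ i‖ := Finset.sum_nonneg fun i _ => norm_nonneg _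
    rw [hD]; linarith
  have hbD : ∀ i, ‖b₀ i‖ ≤ D := fun i => by
    have : ‖b₀ i‖ ≤ ∑ i, ‖b₀ i‖ :=
      Finset.single_le_sum (f := fun i => ‖b₀ i‖) (fun i _ => norm_nonneg _) (Finset.mem_univ i)
    rw [hD]; linarith
  set η : ℝ := ε / ((1 + G ^ 2) * D) with hη
  have hη0 : 0 < η := by positivity
  set et : ℕ → ℝ := fun k => 1 / ((k : ℝ) + 1) with het
  have het0 : ∀ k, 0 < et k := fun k => by simp only [het]; positivity
  have het1 : ∀ k, et k ≤ 1 := fun k => by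
    simp only [het]
    rw [div_le_one (by positivity)]
    have : (0 : ℝ) ≤ k := Nat.cast_nonneg k
    linarith
  -- curves in `t`
  set α : ℕ → ℝ → Eu n := fun k t => tw n (et k) t (d k) with hα
  have hαc : ∀ k, Continuous (α k) := fun k => continuous_tw _ _
  have hαN : ∀ k, volume {x : Eu n | ∃ t ∈ K, inner ℝ (α k t) x = 0} = 0 := fun k =>
    hN n K (α k) hK hK0 (hP n (et k) (d k) (het0 k) (hd0 k)).2.2.1
      (fun t _ => (hP n (et k) (d k) (het0 k) (hd0 k)).2.1 t)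
  obtain ⟨δ, hδ, hδN⟩ := hB n K α hK hαc hαN
  have hβN : ∀ c : Eu n, c ≠ 0 → volume {x : Eu n | ∃ t ∈ K, inner ℝ (tw n η t c) x = 0} = 0 :=
    fun c hc => hN n K (fun t => tw n η t c) hK hK0 (hP n η c hη0 hc).2.2.1
      (fun t _ => (hP n η c hη0 hc).2.1 t)
  set a : ℕ → ℝ → Eu n := fun k u => α k (φ u) with ha
  set b : Fin M → ℝ → Eu n := fun i u => tw n η (φ u) (b₀ i) with hb
  set A : ℕ → ℝ := fun k => ‖d k‖ * (1 + et k * G ^ 2) with hA
  set B : ℝ := D * (1 + η * G ^ 2) with hB'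
  have hvisit : ∀ U : Set (Eu n), IsOpen U → (U ∩ {0}ᶜ).Nonempty → ∃ k, ∀ u, a k u ∈ U := by
    intro U hU hne
    obtain ⟨z, hz, hzk⟩ := hd U hU hne
    obtain ⟨r, hr, hrU⟩ := Metric.isOpen_iff.1 hU z hz
    obtain ⟨l, hl⟩ := exists_nat_gt (G ^ 2 * ‖z‖ / r)
    obtain ⟨k, hk, hkz⟩ := hzk l
    refine ⟨k, fun u => hrU ?_⟩
    rw [Metric.mem_ball, dist_eq_norm]
    have h1 := tw_near hP (het0 k) (hGφ u) (d k)
    rw [hkz] at h1
    have h2 : a k u = tw n (et k) (φ u) z := by simp only [ha, hα, hkz]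
    rw [h2]
    refine h1.trans_lt ?_
    rw [div_lt_iff₀ hr] at hl
    have h3 : (l : ℝ) ≤ k := by exact_mod_cast hk
    simp only [het]
    rw [one_div, mul_assoc, inv_mul_lt_iff₀ (by positivity)]
    nlinarith
  refine ⟨a, b, A, B, δ, ⟨?_, ?_, ?_, ?_, ?_, hδ, ?_, ?_, ?_, ?_⟩, ?_⟩
  · intro k
    exact (hαc k).measurable.comp hφm
  · intro i
    exact (continuous_tw η (b₀ i)).measurable.comp hφm
  · intro k u
    exact tw_norm hP (het0 k) (hGφ u) (d k)
  · intro i u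
    refine (tw_norm hP hη0 (hGφ u) (b₀ i)).trans ?_
    apply mul_le_mul_of_nonneg_right (hbD i)
    positivity
  · intro k
    have := het0 k
    simp only [hA]; positivity
  · -- the condition holds almost everywhere
    have hZ : volume (⋃ c ∈ (Set.range (fun p : Fin M × Fin M => b₀ p.1 - b₀ p.2) ∪
        Set.range (fun p : Fin M × Fin M => b₀ p.1 + b₀ p.2)) \ {0},
        {x : Eu n | ∃ t ∈ K, inner ℝ (tw n η t c) x = 0}) = 0 := by
      rw [measure_biUnion_null_iff]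
      · intro c hc
        exact hβN c hc.2
      · refine Set.Countable.mono Set.sdiff_subset ?_
        exact (Set.countable_range _).union (Set.countable_range _)
    refine measure_mono_null ?_ (measure_union_null hδN hZ)
    intro x hx
    by_contra hcon
    apply hx
    rw [Set.mem_union, not_or] at hcon
    obtain ⟨hc1, hc2⟩ := hcon
    have hgood : Good K α δ x := by
      by_contra h
      exact hc1 h
    obtain ⟨hg1, k₀, hg2⟩ := hgood
    have hlow : ∀ c : Eu n, c ∈ (Set.range (fun p : Fin M × Fin M => b₀ p.1 - b₀ p.2) ∪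
        Set.range (fun p : Fin M × Fin M => b₀ p.1 + b₀ p.2)) → ∃ r : ℝ, 0 < r ∧
          ∀ u, tw n η (φ u) c = 0 ∨ r ≤ |inner ℝ (tw n η (φ u) c) x| := by
      intro c hc
      rcases eq_or_ne c 0 with h0 | h0
      · subst h0
        exact ⟨1, one_pos, fun u => Or.inl (tw_zero _ _)⟩
      · obtain ⟨r, hr, h⟩ := exists_lower hK (continuous_tw η c) (x := x) (by
          intro h
          apply hc2
          rw [Set.mem_iUnion₂]
          exact ⟨c, ⟨hc, h0⟩, h⟩)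
        exact ⟨r, hr, fun u => Or.inr (h _ (hφK u))⟩
    refine ⟨?_, fun k => ?_, k₀, fun k hk u => hg2 k hk _ (hφK u)⟩
    · choose! r hr hr' using hlow
      have hfin : ∃ r₀ : ℝ, 0 < r₀ ∧ ∀ i j : Fin M, r₀ ≤ r (b₀ i - b₀ j) ∧ r₀ ≤ r (b₀ i + b₀ j) := by
        rcases isEmpty_or_nonempty (Fin M) with hM | hM
        · exact ⟨1, one_pos, fun i => (hM.false i).elim⟩
        · obtain ⟨p, hp⟩ := Finite.exists_min
            (fun p : Fin M × Fin M => min (r (b₀ p.1 - b₀ p.2)) (r (b₀ p.1 + b₀ p.2)))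
          refine ⟨min (r (b₀ p.1 - b₀ p.2)) (r (b₀ p.1 + b₀ p.2)), ?_, fun i j => ?_⟩
          · exact lt_min (hr _ (Or.inl ⟨p, rfl⟩)) (hr _ (Or.inr ⟨p, rfl⟩))
          · have h := hp (i, j)
            exact ⟨h.trans (min_le_left _ _), h.trans (min_le_right _ _)⟩
      obtain ⟨r₀, hr₀, hr₀'⟩ := hfin
      refine ⟨r₀, hr₀, fun u i j => ⟨?_, ?_⟩⟩
      · simp only [hb, tw_sub]
        refine (hr' (b₀ i - b₀ j) (Or.inl ⟨(i, j), rfl⟩) u).imp id fun h => ?_
        exact (hr₀' i j).1.trans h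
      · simp only [hb, tw_add]
        refine (hr' (b₀ i + b₀ j) (Or.inr ⟨(i, j), rfl⟩) u).imp id fun h => ?_
        exact (hr₀' i j).2.trans h
    · obtain ⟨r, hr, h⟩ := hg1 k
      exact ⟨r, hr, fun u => h _ (hφK u)⟩
  · intro x hx
    obtain ⟨k, hk⟩ := hvisit {z | 0 < (inner ℝ z x : ℝ)}
      (isOpen_lt continuous_const (by fun_prop)) ⟨x, by
        simp only [Set.mem_inter_iff, Set.mem_ofPred_eq, Set.mem_compl_iff, Set.mem_singleton_iff]
        exact ⟨real_inner_self_pos.2 hx, hx⟩⟩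
    exact ⟨k, fun u => hk u⟩
  · intro x y hxy
    obtain ⟨z, hz1, hz2⟩ := exists_sep hxy
    have hU1 : IsOpen {z : Eu n | 0 < (inner ℝ z x : ℝ)} := isOpen_lt continuous_const (by fun_prop)
    have hU2 : IsOpen {z : Eu n | (inner ℝ z y : ℝ) < 0} := isOpen_lt (by fun_prop) continuous_const
    obtain ⟨k, hk⟩ := hvisit _ (hU1.inter hU2) ⟨z, ⟨hz1, hz2⟩, by
      intro h
      rw [Set.mem_singleton_iff] at h
      rw [h, inner_zero_left] at hz1
      exact lt_irrefl _ hz1⟩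
    exact ⟨k, fun u => hk u⟩
  · -- smoothness condition
    intro x hx
    apply ae_restrict_of_ae
    set T : Set ℝ := (⋃ k, {t | inner ℝ (α k t) x = 0}) ∪
      ⋃ p : Fin M × Fin M, ({t | tw n η t (b₀ p.1 - b₀ p.2) ≠ 0 ∧
        inner ℝ (tw n η t (b₀ p.1 - b₀ p.2)) x = 0} ∪
        {t | tw n η t (b₀ p.1 + b₀ p.2) ≠ 0 ∧ inner ℝ (tw n η t (b₀ p.1 + b₀ p.2)) x = 0}) with hT
    have hc : ∀ c : Eu n, Set.Countable {t | tw n η t c ≠ 0 ∧ inner ℝ (tw n η t c) x = 0} := by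
      intro c
      rcases eq_or_ne c 0 with h0 | h0
      · subst h0
        simp only [tw_zero]
        simp
      · exact (((hP n η c hη0 h0).1 x hx).subset fun t ht => ht.2).countable
    have hTc : T.Countable := by
      refine (Set.countable_iUnion fun k => ?_).union (Set.countable_iUnion fun p => ?_)
      · exact ((hP n (et k) (d k) (het0 k) (hd0 k)).1 x hx).countable
      · exact (hc _).union (hc _)
    have hpre : volume (φ ⁻¹' T) = 0 := (hTc.preimage hφi).measure_zero _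
    rw [ae_iff]
    refine measure_mono_null ?_ hpre
    intro u hu
    by_contra hcon
    apply hu
    have h1 : φ u ∉ T := hcon
    rw [hT, Set.mem_union, not_or, Set.mem_iUnion, Set.mem_iUnion] at h1
    obtain ⟨h2, h3⟩ := h1
    push Not at h2 h3
    refine ⟨fun k => h2 k, fun i j => ⟨?_, ?_⟩⟩
    · simp only [hb, tw_sub]
      by_contra h4
      push Not at h4
      exact h3 (i, j) (Or.inl h4)
    · simp only [hb, tw_add]
      by_contra h4
      push Not at h4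
      exact h3 (i, j) (Or.inr h4)
  · intro i u
    refine (tw_near hP hη0 (hGφ u) (b₀ i)).trans ?_
    calc η * G ^ 2 * ‖b₀ i‖ ≤ η * (1 + G ^ 2) * D := by
          apply mul_le_mul _ (hbD i) (norm_nonneg _) (by positivity)
          apply mul_le_mul_of_nonneg_left _ hη0.le
          linarith
      _ = ε := by rw [hη]; field_simp


theorem final22 (hD2 : HD2) (hEx : HEx) (hStr : HStr) (hSmo : HSmo) (hFla : HFla)
    (hφ : HPhi) (hN : HNull) (hB : HBC) (hP : HPol) (hPoly : GPoly.{v}) (hCone : GCone.{0})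
    (hFin : Final12.{u, 0}) : Final22.{u, v} := by
  intro Y₀ _ _ _ _ ε' hε'
  set ε : ℝ := ε' / 2 with hεd
  have hε : 0 < ε := by positivity
  set n := Module.finrank ℝ Y₀ with hn
  have hn1 : 1 ≤ n := Module.finrank_pos
  let L₀ : Eu n ≃L[ℝ] Y₀ := (toEuclidean (E := Y₀)).symm
  obtain ⟨M, b₀, hb₀⟩ := hPoly n Y₀ L₀ ε hε
  set K : ℝ := ‖(L₀.symm : Y₀ →L[ℝ] Eu n)‖ with hK
  have hK0 : 0 ≤ K := norm_nonneg _
  obtain ⟨a, b, A, B, δ, hcur, hbb⟩ := exists_cur hφ hN hB hP n M hn1 b₀ (ε / (K + 1)) (by positivity)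
  set η : ℝ := min 1 (ε / (2 * (K + 1))) with hη
  have hη0 : 0 < η := lt_min one_pos (by positivity)
  have hη1 : η ≤ 1 := min_le_left _ _
  have hηK : 2 * η * K ≤ ε := by
    have h1 : η ≤ ε / (2 * (K + 1)) := min_le_right _ _
    rw [le_div_iff₀ (by positivity)] at h1
    nlinarith
  have hA0 := hcur.A0
  have hδ := hcur.hδ
  set q : ℕ → ℝ := fun k => δ k / (1 + A k) with hq
  have hq0 : ∀ k, 0 < q k := fun k => div_pos (hδ k).1 (by have := hA0 k; positivity)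
  have hq1 : ∀ k, q k ≤ 1 := fun k => by
    rw [hq]
    simp only
    have := hA0 k
    rw [div_le_one (by positivity)]
    linarith [(hδ k).2]
  have hqa : ∀ k, q k * A k ≤ 1 := fun k => by
    have h2 := hA0 k
    have h1 : q k ≤ 1 / (1 + A k) := by
      rw [hq]
      simp only
      gcongr
      exact (hδ k).2
    calc q k * A k ≤ 1 / (1 + A k) * A k := by gcongr
      _ ≤ 1 := by
        rw [one_div, inv_mul_le_iff₀ (by positivity)]
        linarith
  let c : ℕ → ℝ := fun k => η * ((1 / 2) ^ k * q k ^ (k + 1))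
  have hc0 : ∀ k, 0 < c k := fun k => by
    have := hq0 k
    positivity
  have hc1 : ∀ k, c k ≤ (1 / 2) ^ k * (δ k / (1 + A k)) ^ (k + 1) := fun k => by
    have h1 : 0 ≤ (1 / 2 : ℝ) ^ k * q k ^ (k + 1) := by
      have := hq0 k
      positivity
    calc c k = η * ((1 / 2) ^ k * q k ^ (k + 1)) := rfl
      _ ≤ 1 * ((1 / 2) ^ k * q k ^ (k + 1)) := by gcongr
      _ = _ := by rw [one_mul]
  have hca : ∀ k, c k * A k ≤ η * (1 / 2) ^ k := fun k => by
    have h0 := hq0 k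
    have h2 := hA0 k
    calc c k * A k = η * (1 / 2) ^ k * (q k ^ k * (q k * A k)) := by
          simp only [c]
          ring
      _ ≤ η * (1 / 2) ^ k * (1 * 1) := by
          gcongr
          · exact pow_le_one₀ h0.le (hq1 k)
          · exact hqa k
      _ = η * (1 / 2) ^ k := by ring
  have hgeo : Summable (fun k : ℕ => η * (1 / 2 : ℝ) ^ k) :=
    summable_geometric_two.mul_left η
  have hcs : Summable (fun k => c k * A k) :=
    Summable.of_nonneg_of_le (fun k => mul_nonneg (hc0 k).le (hA0 k)) hca hgeo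
  have hcsum : ∑' k, c k * A k ≤ 2 * η := by
    calc ∑' k, c k * A k ≤ ∑' k : ℕ, η * (1 / 2 : ℝ) ^ k := hcs.tsum_le_tsum hca hgeo
      _ = η * 2 := by rw [tsum_mul_left, tsum_geometric_two]
      _ = 2 * η := by ring
  have hdat : Dat a c b A B := ⟨hcur.ma, hcur.mb, hcur.ba, hcur.bb, hc0, hcs⟩
  have hxK : ∀ x : Eu n, ‖x‖ ≤ K * ‖L₀ x‖ := by
    intro x
    have h1 := (L₀.symm : Y₀ →L[ℝ] Eu n).le_opNorm (L₀ x)
    have h2 : (L₀.symm : Y₀ →L[ℝ] Eu n) (L₀ x) = x := by simp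
    rw [h2] at h1
    exact h1
  -- the norm is close to the given one
  have hser : ∀ (x : Eu n) (u : ℝ), 0 ≤ ∑' k, c k * |inner ℝ (a k u) x| ∧
      ∑' k, c k * |inner ℝ (a k u) x| ≤ ε * ‖L₀ x‖ := by
    intro x u
    have hle : ∀ k, c k * |inner ℝ (a k u) x| ≤ (c k * A k) * ‖x‖ := fun k => by
      have h1 : |(inner ℝ (a k u) x : ℝ)| ≤ A k * ‖x‖ :=
        (abs_real_inner_le_norm _ _).trans
          (mul_le_mul_of_nonneg_right (hcur.ba k u) (norm_nonneg _))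
      rw [mul_assoc (c k)]
      exact mul_le_mul_of_nonneg_left h1 (hc0 k).le
    have hs1 : Summable (fun k => (c k * A k) * ‖x‖) := hcs.mul_right _
    have hs2 : Summable (fun k => c k * |inner ℝ (a k u) x|) :=
      Summable.of_nonneg_of_le (fun k => mul_nonneg (hc0 k).le (abs_nonneg _)) hle hs1
    refine ⟨tsum_nonneg (fun k => mul_nonneg (hc0 k).le (abs_nonneg _)), ?_⟩
    have hx := hxK x
    have hxn := norm_nonneg x
    have hLx := norm_nonneg (L₀ x)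
    calc ∑' k, c k * |inner ℝ (a k u) x| ≤ ∑' k, (c k * A k) * ‖x‖ := hs2.tsum_le_tsum hle hs1
      _ = (∑' k, c k * A k) * ‖x‖ := by rw [tsum_mul_right]
      _ ≤ (2 * η) * (K * ‖L₀ x‖) := by gcongr
      _ = (2 * η * K) * ‖L₀ x‖ := by ring
      _ ≤ ε * ‖L₀ x‖ := by gcongr
  have hpol : ∀ (x : Eu n) (u : ℝ),
      |‖(fun i : Fin M => (inner ℝ (b i u) x : ℝ))‖ - ‖(fun i : Fin M => (inner ℝ (b₀ i) x : ℝ))‖|
        ≤ ε * ‖L₀ x‖ := by
    intro x u
    refine (abs_norm_sub_norm_le _ _).trans ?_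
    rw [pi_norm_le_iff_of_nonneg (by positivity)]
    intro i
    have h1 : (inner ℝ (b i u) x : ℝ) - inner ℝ (b₀ i) x = inner ℝ (b i u - b₀ i) x := by
      rw [inner_sub_left]
    have h2 : ‖(inner ℝ (b i u) x : ℝ) - inner ℝ (b₀ i) x‖ ≤ ‖b i u - b₀ i‖ * ‖x‖ := by
      rw [h1]; exact norm_inner_le_norm _ _
    refine h2.trans ?_
    calc ‖b i u - b₀ i‖ * ‖x‖ ≤ ε / (K + 1) * (K * ‖L₀ x‖) :=
          mul_le_mul (hbb i u) (hxK x) (norm_nonneg _) (by positivity)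
      _ = ε * ‖L₀ x‖ * (K / (K + 1)) := by ring
      _ ≤ ε * ‖L₀ x‖ * 1 := by
          apply mul_le_mul_of_nonneg_left _ (by positivity)
          rw [div_le_one (by positivity)]
          linarith
      _ = ε * ‖L₀ x‖ := mul_one _
  have hint := (hD2 n M a c b A B hdat).1
  have hclose : ∀ x : Eu n, (1 - ε') * ‖L₀ x‖ ≤ nm a c b x ∧ nm a c b x ≤ (1 + ε') * ‖L₀ x‖ := by
    intro x
    have hpt : ∀ u, (1 - ε') * ‖L₀ x‖ ≤ nrm (fun k => a k u) c (fun i => b i u) x ∧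
        nrm (fun k => a k u) c (fun i => b i u) x ≤ (1 + ε') * ‖L₀ x‖ := by
      intro u
      have h1 := hb₀ x
      have h2 := abs_le.1 (hpol x u)
      have h3 := hser x u
      unfold nrm
      have h4 : ε' = 2 * ε := by rw [hεd]; ring
      rw [h4]
      constructor
      · linarith [h1.1, h2.1, h3.1]
      · linarith [h1.2, h2.2, h3.2]
    have hvol : (volume.restrict (Set.Icc (0 : ℝ) 1)).real Set.univ = 1 := by
      simp [Measure.real]
    have hconst : ∀ r : ℝ, ∫ _u in Set.Icc (0 : ℝ) 1, r = r := by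
      intro r
      rw [integral_const, hvol, one_smul]
    constructor
    · rw [← hconst ((1 - ε') * ‖L₀ x‖)]
      apply integral_mono _ (hint x) (fun u => (hpt u).1)
      exact integrable_const _
    · rw [← hconst ((1 + ε') * ‖L₀ x‖)]
      apply integral_mono (hint x) _ (fun u => (hpt u).2)
      exact integrable_const _
  obtain ⟨Y, i1, i2, L, hL⟩ := hEx n M a c b A B hdat hcur.ex
  have : FiniteDimensional ℝ Y := LinearEquiv.finiteDimensional L
  let Lc : Eu n ≃L[ℝ] Y := L.toContinuousLinearEquiv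
  let S : Y₀ ≃L[ℝ] Y := L₀.symm.trans Lc
  refine ⟨Y, i1, i2, S, ?_, hStr n M a c b A B hdat hcur.sep Y L hL, ?_, ?_⟩
  · intro y
    have h1 : S y = L (L₀.symm y) := rfl
    have h2 := hclose (L₀.symm y)
    rw [ContinuousLinearEquiv.apply_symm_apply] at h2
    rw [h1, hL]
    exact h2
  · intro y hy
    have h1 : L.symm y ≠ 0 := by
      intro h
      apply hy
      rw [← L.apply_symm_apply y, h, map_zero]
    have h2 := hSmo n M a c b A B hdat Y L hL (L.symm y) h1 (hcur.smo _ h1)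
    rwa [L.apply_symm_apply] at h2
  · letI : MeasurableSpace Y := borel Y
    have : BorelSpace Y := ⟨rfl⟩
    apply hFin Y
    have hfr : Module.finrank ℝ Y = n := by
      rw [← L.finrank_eq, finrank_euclideanSpace, Fintype.card_fin]
    let μ : Measure Y := Measure.map Lc volume
    have : μ.IsAddHaarMeasure := Lc.isAddHaarMeasure_map volume
    have hμ : μ (L '' {x | ¬ Cond a b δ x}) = 0 := by
      have h1 : μ = Measure.map (Lc.toHomeomorph.toMeasurableEquiv) volume := rfl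
      rw [h1, MeasurableEquiv.map_apply]
      have h2 : (Lc.toHomeomorph.toMeasurableEquiv) ⁻¹' (L '' {x | ¬ Cond a b δ x})
          = {x | ¬ Cond a b δ x} := by
        have h3 : (Lc.toHomeomorph.toMeasurableEquiv : Eu n → Y) = L := rfl
        rw [h3]
        exact Set.preimage_image_eq _ L.injective
      rw [h2]
      exact hcur.cond
    have h4 := hCone Y μ (L '' {x | ¬ Cond a b δ x}) (by rw [hfr]; exact hn1) (by
      rintro _ ⟨x, hx, rfl⟩ t ht
      refine ⟨t • x, ?_, map_smul L t x⟩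
      intro hg
      apply hx
      have h5 := hg.smul (inv_pos.2 ht)
      rwa [smul_smul, inv_mul_cancel₀ ht.ne', one_smul] at h5) hμ
    refine measure_mono_null ?_ h4
    rintro p ⟨hp, hnot⟩
    refine ⟨⟨L.symm p, ?_, L.apply_symm_apply p⟩, mem_sphere_zero_iff_norm.2 hp⟩
    intro hg
    apply hnot
    refine ⟨3, by norm_num, ?_⟩
    obtain ⟨hg1, hg2, hg3⟩ := hg
    have h6 := hFla n M a c b A B δ hdat hδ hA0 hc1 Y L hL (L.symm p)
      (by rw [L.apply_symm_apply]; exact hp) hg1 hg2 hg3 3 (by norm_num)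
    rwa [L.apply_symm_apply] at h6

end Pool.Agent.Helper18.PB2
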