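import Pool.Agent.Helper18.PB2.Asm
import Pool.Agent.Helper31.PB2.PHI
import Pool.Agent.Helper62.PB2.NullCurve
import Pool.Agent.Helper49.PB2.BC
import Pool.Agent.Helper90.PB2.POL
import Pool.Agent.Helper73.PB2.D2
import Pool.Agent.Helper19.PB2.EX
import Pool.Agent.Helper71.PB2.STR
import Pool.Agent.Helper75.PB2.SMO
import Pool.Agent.Helper40.PB2.FLA

/-!
# Property B, second round: the final theorems without hypotheses
-/

set_option autoImplicit false

namespace Pool.Agent.Helper18.PB2

open Pool.Agent.Helper18.PB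

universe u v

theorem main22 : Final22.{u, v} :=
  final22 Helper73.PB2.d2 (Helper19.PB2.ex Helper73.PB2.d2) (Helper71.PB2.str Helper73.PB2.d2)
    (Helper75.PB2.smo Helper73.PB2.d2) (Helper40.PB2.fla Helper73.PB2.d2) Helper31.PB2.phi
    Helper62.PB2.nul Helper49.PB2.bc Helper90.PB2.pol Helper94.PB.f6 Helper19.PB.f1 main12

end Pool.Agent.Helper18.PB2
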