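import Mathlib
import Pool.Agent.Helper18.PB.Defs

/-!
# MP_b9cb57_an, second round (PB2): property B for norms flat of order `s > 2` almost everywhere, in
every dimension, and smooth strictly convex examples. Intermediate statements (packets).

The space `Y` of the examples has the norm
`N(x) = ∫_{[0,1]} ( max_i |⟨b_i(u), x⟩| + ∑_k c_k |⟨a_k(u), x⟩| ) du`,
where `a_k(u) = tw n η_k (φ u) a_k`, `b_i(u) = tw n η (φ u) b_i`, `tw n η t c = c + η ⟨γ(t), c⟩ γ(t)`,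
`γ(t) = (t, t², …, tⁿ)`, `φ` is an injective measurable function with values in a compact null set.
-/

set_option autoImplicit false

open MeasureTheory Measure

namespace Pool.Agent.Helper18.PB2

open Pool.Agent.Helper18.PB

universe u v

/-- Euclidean space -/
abbrev Eu (n : ℕ) := EuclideanSpace ℝ (Fin n)

/-- the moment curve `(t, t², …, tⁿ)` -/
noncomputable def gam (n : ℕ) (t : ℝ) : Eu n := WithLp.toLp 2 (fun i : Fin n => t ^ ((i : ℕ) + 1))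

/-- `c + η ⟨γ(t), c⟩ γ(t)` -/
noncomputable def tw (n : ℕ) (η t : ℝ) (c : Eu n) : Eu n :=
  c + (η * inner ℝ (gam n t) c) • gam n t

/-- PHI. A measurable injective function with values in a compact null set.

Proof. Let `q j = TopologicalSpace.denseSeq ℝ j` and
`φ u = ∑' j, (1/4)^j * (if q j < u then 1 else 0)` (summable, comparison with the geometric series).
`φ` is strictly increasing: for `u < v` pick `j` with `u < q j < v` (density); the terms are monotone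
in `u` and the `j`-th one increases. Hence `φ` is injective, and measurable (`StrictMono.monotone`,
`Monotone.measurable`). For `J : ℕ` and a finite set `s ⊆ range J` put `c_s = ∑ j ∈ s, (1/4)^j` and
`r_J = (4/3) (1/4)^J = ∑_{j ≥ J} (1/4)^j`. With `s = {j < J | q j < u}` one has
`c_s ≤ φ u ≤ c_s + r_J`. So the range of `φ` is contained in the compact set
`K_J = ⋃_{s ∈ powerset (range J)} Icc c_s (c_s + r_J)`, whose measure is at most
`2^J r_J = (4/3) 2^(-J)`. Take `K = ⋂_J K_J` (closed subset of the compact set `K_0`). -/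
def HPhi : Prop :=
  ∃ (φ : ℝ → ℝ) (K : Set ℝ), Measurable φ ∧ Function.Injective φ ∧ IsCompact K ∧ volume K = 0 ∧
    ∀ u, φ u ∈ K

/-- NUL. The hyperplanes orthogonal to the points of a curve over a null compact set cover a null
set.

Proof. If `n = 0`, `α t = 0` always, so `K = ∅` and the set is empty. Let `n = n' + 1`. If
`⟨α t, x⟩ = 0`, `t ∈ K`, some coordinate `(α t) i` is not `0`. So the set is the union over `i` and
`m : ℕ` of `Z i m = {x | ∃ t ∈ K_{i,m}, ⟨α t, x⟩ = 0}`, `K_{i,m} = {t ∈ K | 1/(m+1) ≤ |(α t) i|}`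
compact. `Z i m` is closed (compactness of `K_{i,m}`: e.g. it is the image under the second projection
of a closed subset of `K_{i,m} ×ˢ univ`, `isClosedMap_snd_of_compactSpace` or sequences), hence
measurable. For fixed `(x_j)_{j ≠ i}` the slice `{x_i | x ∈ Z i m}` is contained in the image of
`K_{i,m}` (a null set) under `ψ t = - (∑_{j ≠ i} (α t) j * x_j) / (α t) i`, which is differentiable at
the points of `K_{i,m}`, so the slice is null
(`MeasureTheory.addHaar_image_eq_zero_of_differentiableOn_of_addHaar_eq_zero`). Conclude by Fubini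
(`MeasureTheory.Measure.measure_prod_null` with the measure preserving equivalences
`EuclideanSpace.volume_preserving_measurableEquiv` (or its current name) and
`MeasureTheory.volume_preserving_piFinSuccAbove _ i`). -/
def HNull : Prop :=
  ∀ (n : ℕ) (K : Set ℝ) (α : ℝ → Eu n), IsCompact K → volume K = 0 → ContDiff ℝ 1 α →
    (∀ t ∈ K, α t ≠ 0) → volume {x : Eu n | ∃ t ∈ K, inner ℝ (α t) x = 0} = 0

/-- the good points of a sequence of curves over `K` -/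
def Good {n : ℕ} (K : Set ℝ) (α : ℕ → ℝ → Eu n) (δ : ℕ → ℝ) (x : Eu n) : Prop :=
  (∀ k, ∃ r : ℝ, 0 < r ∧ ∀ t ∈ K, r ≤ |inner ℝ (α k t) x|) ∧
    ∃ k₀, ∀ k ≥ k₀, ∀ t ∈ K, δ k * ‖x‖ ≤ |inner ℝ (α k t) x|

/-- BC. Almost every point is good (Borel–Cantelli).

Proof. If `K = ∅` every point is good. Let `Z_k = {x | ∃ t ∈ K, ⟨α_k t, x⟩ = 0}` (null). For
`k, m : ℕ` let `B k m = {x | ‖x‖ ≤ 1 ∧ ∃ t ∈ K, |⟨α_k t, x⟩| ≤ ‖x‖ / (m + 1)}`: closed (compactness of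
`K`), decreasing in `m`, and `⋂_m B k m ⊆ Z_k` by compactness (the continuous function
`t ↦ |⟨α_k t, x⟩|` attains its minimum on `K`). The measures are finite, so
`volume (B k m) → 0` as `m → ∞` (`tendsto_measure_iInter_atTop`), and one can choose `m_k` with
`volume (B k m_k) ≤ 2^(-k)`; put `δ k = 1 / (m_k + 1)`. By Borel–Cantelli
(`measure_limsup_atTop_eq_zero` / `ae_eventually_notMem`) almost every `x` belongs to only finitely
many `B k m_k`. If moreover `x ∉ ⋃ Z_k` and `‖x‖ ≤ 1` then `x` is good (first part: minimum over `K`;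
second: `x ∉ B k m_k` means `|⟨α_k t, x⟩| > δ k ‖x‖` for all `t ∈ K`). So the non-good points of the
unit ball form a null set. Being good is invariant under `x ↦ m • x`, `m > 0`, so the set of the
non-good points is the union over `m : ℕ` of `(m + 1) • ({not good} ∩ closedBall 0 1)`, hence null
(`Measure.addHaar_smul`). (See `Helper15/PB/F5.lean` for a very similar proof.) -/
def HBC : Prop :=
  ∀ (n : ℕ) (K : Set ℝ) (α : ℕ → ℝ → Eu n), IsCompact K → (∀ k, Continuous (α k)) →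
    (∀ k, volume {x : Eu n | ∃ t ∈ K, inner ℝ (α k t) x = 0} = 0) →
    ∃ δ : ℕ → ℝ, (∀ k, 0 < δ k ∧ δ k ≤ 1) ∧ volume {x : Eu n | ¬ Good K α δ x} = 0

/-- POL. The polynomial `t ↦ ⟨tw n η t c, x⟩ = ⟨c, x⟩ + η p_c(t) p_x(t)`, `p_x(t) = ∑ x_i t^(i+1)`,
has finitely many zeros, and `tw n η t c ≠ 0`; smoothness and bounds.

Proof. (1) Let `P_c = ∑ i, C (c i) * X ^ (i+1)`, `P_x` similarly, `Q = C ⟨c,x⟩ + C η * P_c * P_x`;
`Q.eval t = ⟨tw n η t c, x⟩`. `P_c ≠ 0`, `P_x ≠ 0` and both are divisible by `X`, so `P_c * P_x` is a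
nonzero multiple of `X ^ 2`, its degree is at least `2` and `Q` is not constant; so `Q ≠ 0` and its
root set is finite. (2) `⟨tw n η t c, c⟩ = ‖c‖² + η ⟨γ t, c⟩² > 0`. (3) coordinates are polynomials.
(4) `|⟨γ, c⟩| ≤ ‖γ‖ ‖c‖`. -/
def HPol : Prop :=
  ∀ (n : ℕ) (η : ℝ) (c : Eu n), 0 < η → c ≠ 0 →
    (∀ x : Eu n, x ≠ 0 → Set.Finite {t : ℝ | inner ℝ (tw n η t c) x = 0}) ∧
    (∀ t : ℝ, tw n η t c ≠ 0) ∧ ContDiff ℝ 1 (fun t => tw n η t c) ∧
    ∀ (t G : ℝ), ‖gam n t‖ ≤ G → ‖tw n η t c - c‖ ≤ η * G ^ 2 * ‖c‖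

/-- the data: measurable bounded functions -/
structure Dat {n M : ℕ} (a : ℕ → ℝ → Eu n) (c : ℕ → ℝ) (b : Fin M → ℝ → Eu n) (A : ℕ → ℝ)
    (B : ℝ) : Prop where
  ma : ∀ k, Measurable (a k)
  mb : ∀ i, Measurable (b i)
  ba : ∀ k u, ‖a k u‖ ≤ A k
  bb : ∀ i u, ‖b i u‖ ≤ B
  cpos : ∀ k, 0 < c k
  csum : Summable (fun k => c k * A k)

/-- the norm `∫_{[0,1]} nrm (a · u) c (b · u) x du` -/
noncomputable def nm {n M : ℕ} (a : ℕ → ℝ → Eu n) (c : ℕ → ℝ) (b : Fin M → ℝ → Eu n)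
    (x : Eu n) : ℝ :=
  ∫ u in Set.Icc (0 : ℝ) 1, nrm (fun k => a k u) c (fun i => b i u) x

/-- the pointwise bound of the second difference -/
noncomputable def Jf {n M : ℕ} (a : ℕ → ℝ → Eu n) (c : ℕ → ℝ) (b : Fin M → ℝ → Eu n)
    (x h : Eu n) (u : ℝ) : ℝ :=
  (∑ i, ∑ j, (max 0 (|inner ℝ (b i u - b j u) h| - |inner ℝ (b i u - b j u) x|) +
    max 0 (|inner ℝ (b i u + b j u) h| - |inner ℝ (b i u + b j u) x|))) +
    ∑' k, c k * (2 * max 0 (|inner ℝ (a k u) h| - |inner ℝ (a k u) x|))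

/-- D2. Integrability and the second difference of the norm.

Proof. Measurability: finite suprema and countable sums of measurable functions (the norm on
`Fin M → ℝ` is continuous; `Measurable.tsum`-type lemma, or a limit of partial sums, for the series);
bounds: `nrm … ≤ (B + ∑ c_k A_k) ‖x‖`, `0 ≤ Jf … ≤ (4 M² B + 2 ∑ c_k A_k) ‖h‖` (use `|⟨v,h⟩| ≤ ‖v‖‖h‖`).
The inequality is pointwise in `u` (then integrate): with `b_i = b i u`, `a_k = a k u`,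
(i) `|⟨a,x+h⟩| + |⟨a,x-h⟩| - 2|⟨a,x⟩| = 2 max 0 (|⟨a,h⟩| - |⟨a,x⟩|)` (real numbers:
`|p+q| + |p-q| = 2 max |p| |q|`);
(ii) let `P x = ‖(⟨b_i, x⟩)_i‖ = max_i |⟨b_i,x⟩|`. If `M = 0` all is `0`. Otherwise
`P (x+h) = ε ⟨b_i, x+h⟩`, `P (x-h) = ε' ⟨b_j, x-h⟩` for some `i, j` and signs `ε, ε'`. With
`e = ε b_i - ε' b_j`, `f = ε b_i + ε' b_j`: `P(x+h) + P(x-h) = ⟨f, x⟩ + ⟨e, h⟩` and
`2 P x ≥ ε⟨b_i,x⟩ + ε'⟨b_j,x⟩ + |ε⟨b_i,x⟩ - ε'⟨b_j,x⟩| = ⟨f,x⟩ + |⟨e,x⟩|`, so the second difference is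
`≤ |⟨e,h⟩| - |⟨e,x⟩|`, and `e = ± (b_i - b_j)` or `± (b_i + b_j)`: it is at most one term of the
double sum, whose terms are all `≥ 0`. -/
def HD2 : Prop :=
  ∀ (n M : ℕ) (a : ℕ → ℝ → Eu n) (c : ℕ → ℝ) (b : Fin M → ℝ → Eu n) (A : ℕ → ℝ) (B : ℝ),
    Dat a c b A B →
    (∀ x, IntegrableOn (fun u => nrm (fun k => a k u) c (fun i => b i u) x) (Set.Icc 0 1)) ∧
    (∀ x h, IntegrableOn (fun u => Jf a c b x h u) (Set.Icc 0 1)) ∧
    ∀ x h, nm a c b (x + h) + nm a c b (x - h) - 2 * nm a c b x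
      ≤ ∫ u in Set.Icc (0 : ℝ) 1, Jf a c b x h u

/-- EX. Existence of the space.

Proof. `nm` is a norm: for each `u` the function `nrm …` is subadditive, absolutely homogeneous and
`≥ 0` (`Helper84/PB/F2.lean`: `nrm_add`, `nrm_smul`, `nrm_nonneg`; `Summable (c k * ‖a k u‖)` by
comparison with `c k * A k`); integrate. Definiteness: if `x ≠ 0` take `k` with `0 < ⟨a k u, x⟩` for
all `u`; the integrand is `≥ c k * |⟨a k u, x⟩| > 0` for all `u`, so the integral over `Icc 0 1` is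
positive (`setIntegral_pos_iff_support_of_nonneg_ae` or the like). Then put the norm `nm` on a copy of
`Eu n` as in `Helper84/PB/F2.lean`. -/
def HEx : Prop :=
  ∀ (n M : ℕ) (a : ℕ → ℝ → Eu n) (c : ℕ → ℝ) (b : Fin M → ℝ → Eu n) (A : ℕ → ℝ) (B : ℝ),
    Dat a c b A B → (∀ x, x ≠ 0 → ∃ k, ∀ u, 0 < inner ℝ (a k u) x) →
    ∃ (Y : Type) (_ : NormedAddCommGroup Y) (_ : NormedSpace ℝ Y) (L : Eu n ≃ₗ[ℝ] Y),
      ∀ x, ‖L x‖ = nm a c b x

/-- STR. Strict convexity.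

Proof. Use `StrictConvexSpace.of_norm_add` (or as in `Helper64/PB/F3.lean`): let `‖L x + L y‖ =
‖L x‖ + ‖L y‖` and suppose `x, y` are not on the same ray (so both nonzero). Take `k` as in the
hypothesis. For every `u`, `nrm (x+y) ≤ nrm x + nrm y - c_k (|⟨a_k,x⟩| + |⟨a_k,y⟩| - |⟨a_k,x+y⟩|)`
(subadditivity of every term, with equality defect kept in the `k`-th term) and the last bracket is
positive since `⟨a_k,x⟩ > 0 > ⟨a_k,y⟩`. Integrate: the integral of a positive integrable function over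
`Icc 0 1` is positive: contradiction. -/
def HStr : Prop :=
  ∀ (n M : ℕ) (a : ℕ → ℝ → Eu n) (c : ℕ → ℝ) (b : Fin M → ℝ → Eu n) (A : ℕ → ℝ) (B : ℝ),
    Dat a c b A B →
    (∀ x y, ¬ SameRay ℝ x y → ∃ k, ∀ u, 0 < inner ℝ (a k u) x ∧ inner ℝ (a k u) y < 0) →
    ∀ (Y : Type) [NormedAddCommGroup Y] [NormedSpace ℝ Y] (L : Eu n ≃ₗ[ℝ] Y),
      (∀ x, ‖L x‖ = nm a c b x) → StrictConvexSpace ℝ Y

/-- SMO. Differentiability of the norm.

Proof. Let `w` be a norming functional of `p = L x` (`exists_dual_vector`: `‖w‖ = 1`, `w p = ‖p‖`).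
Let `v = L h`. For real `s`: `0 ≤ ‖p + s v‖ - ‖p‖ - s w v` and, since `‖p - s v‖ ≥ ‖p‖ - s w v`,
`‖p + s v‖ - ‖p‖ - s w v ≤ ‖p + s v‖ + ‖p - s v‖ - 2‖p‖ ≤ ∫ Jf x (s h) u du` (D2). It remains to see
that `(1/|s|) ∫ Jf x (s h) u du → 0` as `s → 0` (by the symmetry `Jf x (-h) = Jf x h` it is enough to
take `s > 0`): dominated convergence. `Jf x (s h) u ≤ |s| (4 M² B + 2 ∑ c_k A_k) ‖h‖`, and for `u`
outside the null set of the hypothesis `Jf x (s h) u / s → 0`: each term of the finite sum is `0` for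
small `s` (if the vector `e = b_i ± b_j` is `0`, the term is `max 0 (0 - 0) = 0`; otherwise `⟨e,x⟩ ≠ 0`
and `s |⟨e,h⟩| < |⟨e,x⟩|` for small `s`), each term of the series also, and the `k`-th term of the
series divided by `s` is at most `2 c_k A_k ‖h‖` (`tendsto_tsum_of_dominated_convergence`). So the norm
has at `p` the line derivative `w v` in every direction `v`; as it is `1`-Lipschitz and `Y` is finite
dimensional (`LinearEquiv.finiteDimensional L`), it is Fréchet differentiable: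
`LipschitzWith.hasFDerivAt_of_hasLineDerivAt_of_closure` (with `s = univ`). -/
def HSmo : Prop :=
  ∀ (n M : ℕ) (a : ℕ → ℝ → Eu n) (c : ℕ → ℝ) (b : Fin M → ℝ → Eu n) (A : ℕ → ℝ) (B : ℝ),
    Dat a c b A B →
    ∀ (Y : Type) [NormedAddCommGroup Y] [NormedSpace ℝ Y] (L : Eu n ≃ₗ[ℝ] Y),
      (∀ x, ‖L x‖ = nm a c b x) → ∀ x, x ≠ 0 →
      (∀ᵐ u ∂(volume.restrict (Set.Icc (0 : ℝ) 1)), (∀ k, inner ℝ (a k u) x ≠ 0) ∧
        ∀ i j, (b i u - b j u = 0 ∨ inner ℝ (b i u - b j u) x ≠ 0) ∧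
          (b i u + b j u = 0 ∨ inner ℝ (b i u + b j u) x ≠ 0)) →
      DifferentiableAt ℝ (fun y : Y => ‖y‖) (L x)

/-- FLA. Flatness of every order.

Proof. Let `p = L x`, `‖p‖ = 1` (so `x ≠ 0`), `w` a norming functional of `p`: `‖w‖ = 1`, `w p = 1`. If
`w h' = 0`, `h' = L h`, then `‖p - h'‖ ≥ w (p - h') = 1`, so by D2
`‖p + h'‖ ≤ 1 + ∫ Jf x h u du`. Let `‖h‖ ≤ h₀` (small, chosen below, `h₀ ≤ ‖x‖`). Finite sum in `Jf`:
zero as soon as `2 B h₀ ≤ r` (`B ≥ 0` may be assumed, or use `2 |B|`) since `|⟨e,h⟩| ≤ 2B‖h‖ ≤ r ≤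
|⟨e,x⟩|` or `e = 0`. Series: let `k₁ ≥ k₀, s`. For `k < k₁` the term is `0` as soon as `A_k h₀ ≤ r_k`.
For `k ≥ k₁` the term is nonzero only if `δ_k ‖x‖ < A_k ‖h‖`, and then `δ_k / (1 + A_k) ≤ ‖h‖ / ‖x‖`,
so the term is at most `2 c_k A_k ‖h‖ ≤ 2 (1/2)^k (δ_k/(1+A_k))^k ‖h‖ ≤ 2 (1/2)^k (‖h‖/‖x‖)^k ‖h‖
≤ 2 (1/2)^k (‖h‖/‖x‖)^s ‖h‖` (use `δ_k A_k/(1+A_k) ≤ 1`, `‖h‖ ≤ ‖x‖`, `k ≥ s`). So for `‖h‖ ≤ h₀`:
`‖p + h'‖ ≤ 1 + 4 (‖h‖/‖x‖)^s ‖h‖ ≤ 1 + C₁ ‖h‖^s ≤ 1 + C₂ ‖h'‖^s` (norms on finite dimensional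
spaces: `‖h‖ ≤ C ‖L h‖`). For `‖h‖ > h₀`, `‖h'‖ ≥ h₁ > 0` and `‖p + h'‖ ≤ 1 + ‖h'‖ ≤
1 + h₁^(1-s) ‖h'‖^s` (`s ≥ 1`). See `Helper33/PB/F4.lean` for the analogous proof without integral. -/
def HFla : Prop :=
  ∀ (n M : ℕ) (a : ℕ → ℝ → Eu n) (c : ℕ → ℝ) (b : Fin M → ℝ → Eu n) (A : ℕ → ℝ) (B : ℝ)
    (δ : ℕ → ℝ), Dat a c b A B → (∀ k, 0 < δ k ∧ δ k ≤ 1) → (∀ k, 0 ≤ A k) →
    (∀ k, c k ≤ (1 / 2) ^ k * (δ k / (1 + A k)) ^ (k + 1)) →
    ∀ (Y : Type) [NormedAddCommGroup Y] [NormedSpace ℝ Y] (L : Eu n ≃ₗ[ℝ] Y),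
      (∀ x, ‖L x‖ = nm a c b x) → ∀ x, ‖L x‖ = 1 →
      (∃ r : ℝ, 0 < r ∧ ∀ u i j, (b i u - b j u = 0 ∨ r ≤ |inner ℝ (b i u - b j u) x|) ∧
        (b i u + b j u = 0 ∨ r ≤ |inner ℝ (b i u + b j u) x|)) →
      (∀ k, ∃ r : ℝ, 0 < r ∧ ∀ u, r ≤ |inner ℝ (a k u) x|) →
      (∃ k₀, ∀ k ≥ k₀, ∀ u, δ k * ‖x‖ ≤ |inner ℝ (a k u) x|) →
      ∀ s : ℝ, 1 ≤ s → FlatPt s (L x)

end Pool.Agent.Helper18.PB2
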